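import Mathlib

/-!
# `C^k`-actions of `SL(n, ℝ)` on `(ℝ^m, 0)` and their linearizability
-/

open Filter Topology Set

namespace Pool.Agent.X183.SLN

/-- the group `SL(n, ℝ)`, with its usual topology (Mathlib's, induced from matrices). -/
abbrev SLn (n : ℕ) := Matrix.SpecialLinearGroup (Fin n) ℝ

/-- Euclidean space `ℝ^m`. -/
abbrev Rm (m : ℕ) := EuclideanSpace ℝ (Fin m)

/-- A `C^k`-action of `SL(n, ℝ)` on `(ℝ^m, 0)`: a continuous action
`SL(n, ℝ) × ℝ^m → ℝ^m`, every element acts by a `C^k` map (hence by a `C^k` diffeomorphism, the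
inverse being the action of the inverse element), and the origin is fixed. -/
structure CkAction (n m : ℕ) (k : ℕ∞) where
  /-- the action map -/
  act : SLn n → Rm m → Rm m
  one_act : ∀ x, act 1 x = x
  mul_act : ∀ g h x, act (g * h) x = act g (act h x)
  continuous_act : Continuous fun p : SLn n × Rm m => act p.1 p.2
  contDiff_act : ∀ g, ContDiff ℝ k (act g)
  act_zero : ∀ g, act g 0 = 0

/-- The linear part `ρ(g) = D(g · -)_0` of the action at the fixed point. -/
noncomputable def CkAction.rho {n m : ℕ} {k : ℕ∞} (A : CkAction n m k) (g : SLn n) :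
    Rm m →L[ℝ] Rm m := fderiv ℝ (A.act g) 0

/-- The action is `C^k`-linearizable near `0`: there are open neighbourhoods `V ⊆ U` of `0`
(`U` is the source of `φ`), a neighbourhood `N` of the identity with `N · V ⊆ U`, and a `C^k`
diffeomorphism `φ` of `U` onto an open neighbourhood of `0` with `φ 0 = 0`, such that
`φ (g · x) = ρ(g) (φ x)` for `g ∈ N`, `x ∈ V`. -/
def CkAction.Linearizable {n m : ℕ} {k : ℕ∞} (A : CkAction n m k) : Prop :=
  ∃ (φ : OpenPartialHomeomorph (Rm m) (Rm m)) (V : Set (Rm m)) (N : Set (SLn n)),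
    IsOpen V ∧ (0 : Rm m) ∈ V ∧ V ⊆ φ.source ∧ N ∈ 𝓝 (1 : SLn n) ∧
    (∀ g ∈ N, ∀ x ∈ V, A.act g x ∈ φ.source) ∧
    ContDiffOn ℝ k φ φ.source ∧ ContDiffOn ℝ k φ.symm φ.target ∧ φ 0 = 0 ∧
    ∀ g ∈ N, ∀ x ∈ V, φ (A.act g x) = A.rho g (φ x)

end Pool.Agent.X183.SLN
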