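import Mathlib

/-!
# One-variable Taylor facts
-/

open Filter Topology Set

namespace Pool.Agent.X183.SLN

theorem coeff_zero_of_tendsto : ∀ (k : ℕ) (c : ℕ → ℝ),
    Tendsto (fun t : ℝ => (∑ i ∈ Finset.range (k + 1), c i * t ^ i) / t ^ k) (𝓝[>] 0) (𝓝 0) →
    ∀ i ≤ k, c i = 0 := by
  intro k
  induction k with
  | zero =>
    intro c h i hi
    have hi0 : i = 0 := by omega
    subst hi0
    have h1 : Tendsto (fun _ : ℝ => c 0) (𝓝[>] 0) (𝓝 0) := by
      refine h.congr fun t => ?_
      simp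
    exact tendsto_nhds_unique tendsto_const_nhds h1
  | succ k ih =>
    intro c h
    have hpow : Tendsto (fun t : ℝ => t ^ (k + 1)) (𝓝[>] 0) (𝓝 0) := by
      have : Tendsto (fun t : ℝ => t ^ (k + 1)) (𝓝 0) (𝓝 (0 ^ (k + 1))) :=
        (continuous_pow (k + 1)).tendsto 0
      rw [zero_pow (by omega)] at this
      exact this.mono_left nhdsWithin_le_nhds
    have h0 : c 0 = 0 := by
      have h1 := h.mul hpow
      rw [zero_mul] at h1
      have h2 : Tendsto (fun t : ℝ => ∑ i ∈ Finset.range (k + 1 + 1), c i * t ^ i) (𝓝[>] 0)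
          (𝓝 0) := by
        refine h1.congr' ?_
        filter_upwards [self_mem_nhdsWithin] with t ht
        have ht0 : t ≠ 0 := (Set.mem_Ioi.mp ht).ne'
        field_simp
      have h3 : Tendsto (fun t : ℝ => ∑ i ∈ Finset.range (k + 1 + 1), c i * t ^ i) (𝓝[>] 0)
          (𝓝 (∑ i ∈ Finset.range (k + 1 + 1), c i * (0 : ℝ) ^ i)) := by
        apply Tendsto.mono_left _ nhdsWithin_le_nhds
        apply Continuous.tendsto
        fun_prop
      have h4 := tendsto_nhds_unique h2 h3
      rw [Finset.sum_range_succ'] at h4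
      simp at h4
      exact h4.symm
    have hsh : ∀ i ≤ k, c (i + 1) = 0 := by
      apply ih (fun i => c (i + 1))
      refine h.congr' ?_
      filter_upwards [self_mem_nhdsWithin] with t ht
      have ht0 : t ≠ 0 := (Set.mem_Ioi.mp ht).ne'
      rw [Finset.sum_range_succ', h0]
      simp only [zero_mul, add_zero]
      rw [pow_succ, ← div_div, eq_comm]
      rw [eq_div_iff ht0, div_mul_eq_mul_div, Finset.sum_mul]
      congr 1
      apply Finset.sum_congr rfl
      intro i _
      ring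
    intro i hi
    rcases i with _ | i
    · exact h0
    · exact hsh i (by omega)

theorem bound_of_flat (k : ℕ) (f : ℝ → ℝ) (b : ℝ) (hb : 0 < b)
    (hf : ContDiffOn ℝ (k + 1 : ℕ) f (Icc 0 b))
    (h : Tendsto (fun t => f t / t ^ k) (𝓝[>] 0) (𝓝 0)) :
    ∃ C : ℝ, ∀ t ∈ Icc (0 : ℝ) b, |f t| ≤ C * t ^ (k + 1) := by
  have hcont : ContinuousOn (iteratedDerivWithin (k + 1) f (Icc 0 b)) (Icc 0 b) :=
    hf.continuousOn_iteratedDerivWithin le_rfl (uniqueDiffOn_Icc hb)
  obtain ⟨C, hC⟩ := (isCompact_Icc).exists_bound_of_continuousOn hcont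
  have hT : ∀ t ∈ Icc (0 : ℝ) b,
      ‖f t - taylorWithinEval f k (Icc 0 b) 0 t‖ ≤ C / k.factorial * t ^ (k + 1) := by
    intro t ht
    have h1 := taylor_mean_remainder_bound (n := k) hb.le (by exact_mod_cast hf) ht hC
    rw [sub_zero] at h1
    calc _ ≤ _ := h1
      _ = _ := by ring
  set c : ℕ → ℝ := fun i => ((i.factorial : ℝ)⁻¹) * iteratedDerivWithin i f (Icc 0 b) 0 with hc
  have hTe : ∀ t, taylorWithinEval f k (Icc 0 b) 0 t = ∑ i ∈ Finset.range (k + 1), c i * t ^ i := by
    intro t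
    rw [taylor_within_apply]
    apply Finset.sum_congr rfl
    intro i _
    simp only [hc, sub_zero, smul_eq_mul]
    ring
  have hIoo : ∀ᶠ t in 𝓝[>] (0 : ℝ), t ∈ Icc (0 : ℝ) b ∧ 0 < t := by
    filter_upwards [Ioo_mem_nhdsGT hb] with t ht
    exact ⟨⟨ht.1.le, ht.2.le⟩, ht.1⟩
  have hz : ∀ i ≤ k, c i = 0 := by
    apply coeff_zero_of_tendsto
    have h1 : Tendsto (fun t => (f t - taylorWithinEval f k (Icc 0 b) 0 t) / t ^ k) (𝓝[>] 0)
        (𝓝 0) := by
      apply squeeze_zero_norm' (a := fun t => C / k.factorial * t)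
      · filter_upwards [hIoo] with t ht
        rw [norm_div, Real.norm_of_nonneg (by have := ht.2; positivity : (0 : ℝ) ≤ t ^ k),
          div_le_iff₀ (by have := ht.2; positivity)]
        refine (hT t ht.1).trans_eq ?_
        ring
      · have : Tendsto (fun t : ℝ => C / k.factorial * t) (𝓝 0) (𝓝 (C / k.factorial * 0)) := by
          apply Continuous.tendsto
          fun_prop
        rw [mul_zero] at this
        exact this.mono_left nhdsWithin_le_nhds
    have h2 := h.sub h1
    rw [sub_zero] at h2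
    refine h2.congr fun t => ?_
    rw [← hTe]
    ring
  refine ⟨C / k.factorial, fun t ht => ?_⟩
  have h1 := hT t ht
  rw [hTe t, Finset.sum_eq_zero (fun i hi => by
    rw [hz i (by rw [Finset.mem_range] at hi; omega), zero_mul]), sub_zero] at h1
  exact h1

end Pool.Agent.X183.SLN
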