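import Pool.Agent.X183.SLN.Log
import Pool.Agent.X183.SLN.Taylor
import Pool.Agent.X183.SLN.Defs

/-!
# The construction
-/

open Filter Topology Set
open scoped ContDiff

namespace Pool.Agent.X183.SLN

variable {n : ℕ}

/-- the standard action of a matrix on `Fin n → ℝ`. -/
def mv (g : SLn n) (x : Fin n → ℝ) : Fin n → ℝ := (g : Matrix (Fin n) (Fin n) ℝ).mulVec x

theorem mv_one (x : Fin n → ℝ) : mv (1 : SLn n) x = x := by simp [mv]

theorem mv_mul (g h : SLn n) (x : Fin n → ℝ) : mv (g * h) x = mv g (mv h x) := by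
  simp [mv, Matrix.mulVec_mulVec]

theorem mv_zero (g : SLn n) : mv g 0 = 0 := by simp [mv]

theorem mv_smul (g : SLn n) (r : ℝ) (x : Fin n → ℝ) : mv g (r • x) = r • mv g x := by
  simp [mv, Matrix.mulVec_smul]

theorem mv_inj (g : SLn n) {x : Fin n → ℝ} (h : mv g x = 0) : x = 0 := by
  have := congrArg (mv g⁻¹) h
  rwa [← mv_mul, inv_mul_cancel, mv_one, mv_zero] at this

/-- as a continuous linear map -/
noncomputable def mvL (g : SLn n) : (Fin n → ℝ) →L[ℝ] (Fin n → ℝ) :=
  LinearMap.toContinuousLinearMap (Matrix.mulVecLin (g : Matrix (Fin n) (Fin n) ℝ))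

@[simp] theorem mvL_apply (g : SLn n) (x : Fin n → ℝ) : mvL g x = mv g x := rfl

theorem continuous_mv : Continuous fun p : SLn n × (Fin n → ℝ) => mv p.1 p.2 := by
  unfold mv
  exact Continuous.matrix_mulVec (continuous_subtype_val.comp continuous_fst) continuous_snd

/-- squared Euclidean norm -/
def nsq (x : Fin n → ℝ) : ℝ := ∑ i, x i ^ 2

theorem nsq_nonneg (x : Fin n → ℝ) : 0 ≤ nsq x := Finset.sum_nonneg fun i _ => sq_nonneg _

theorem nsq_pos {x : Fin n → ℝ} (h : x ≠ 0) : 0 < nsq x := by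
  obtain ⟨i, hi⟩ := Function.ne_iff.mp h
  exact Finset.sum_pos' (fun i _ => sq_nonneg _) ⟨i, Finset.mem_univ _, by
    have : x i ≠ 0 := hi
    positivity⟩

theorem nsq_smul (r : ℝ) (x : Fin n → ℝ) : nsq (r • x) = r ^ 2 * nsq x := by
  simp only [nsq, Pi.smul_apply, smul_eq_mul, mul_pow, Finset.mul_sum]

theorem nsq_contDiff : ContDiff ℝ ∞ (nsq (n := n)) := by
  unfold nsq; fun_prop

theorem nsq_zero : nsq (0 : Fin n → ℝ) = 0 := by simp [nsq]

/-- the basic function `u(x, y) = y^k M(log(|x|^2 + y^2))`. -/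
noncomputable def u (k : ℕ) (x : Fin n → ℝ) (y : ℝ) : ℝ := y ^ k * M (Real.log (nsq x + y ^ 2))

theorem M_nonneg (t : ℝ) : 0 ≤ M t := Real.log_nonneg (by nlinarith [sq_nonneg t])

theorem M_le (t : ℝ) : M t ≤ 2 * |t| := by
  unfold M
  have h1 : (1 : ℝ) + t ^ 2 ≤ (1 + |t|) ^ 2 := by
    nlinarith [abs_nonneg t, sq_abs t]
  have h2 : Real.log (1 + t ^ 2) ≤ Real.log ((1 + |t|) ^ 2) :=
    Real.log_le_log (by positivity) h1
  rw [Real.log_pow] at h2
  have h3 : Real.log (1 + |t|) ≤ |t| := by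
    have := Real.log_le_sub_one_of_pos (show (0 : ℝ) < 1 + |t| by positivity)
    linarith
  push_cast at h2
  linarith

theorem u_bound (k : ℕ) (hk : 1 ≤ k) (x : Fin n → ℝ) (y : ℝ) (hy : |y| ≤ 1) :
    |u k x y| ≤ 4 * |Real.sqrt (nsq x + y ^ 2) * Real.log (Real.sqrt (nsq x + y ^ 2))| := by
  unfold u
  have hq : 0 ≤ nsq x + y ^ 2 := add_nonneg (nsq_nonneg x) (sq_nonneg y)
  set q := nsq x + y ^ 2 with hqdef
  have hy1 : |y| ≤ Real.sqrt q := by
    rw [← Real.sqrt_sq_eq_abs]
    apply Real.sqrt_le_sqrt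
    have := nsq_nonneg x
    linarith
  have hlog : Real.log (Real.sqrt q) = Real.log q / 2 := Real.log_sqrt hq
  rw [abs_mul, abs_pow, abs_of_nonneg (M_nonneg _), abs_mul, abs_of_nonneg (Real.sqrt_nonneg q),
    hlog, abs_div, abs_two]
  have h1 : |y| ^ k ≤ Real.sqrt q := (pow_le_of_le_one (abs_nonneg y) hy (by omega)).trans hy1
  have h2 := M_le (Real.log q)
  calc |y| ^ k * M (Real.log q) ≤ Real.sqrt q * (2 * |Real.log q|) := by
        gcongr
        exact M_nonneg _
    _ = 4 * (Real.sqrt q * (|Real.log q| / 2)) := by ring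

theorem u_continuous (k : ℕ) (hk : 1 ≤ k) :
    Continuous fun p : (Fin n → ℝ) × ℝ => u k p.1 p.2 := by
  rw [continuous_iff_continuousAt]
  intro p
  have hqc : Continuous fun p : (Fin n → ℝ) × ℝ => nsq p.1 + p.2 ^ 2 :=
    ((nsq_contDiff.continuous).comp continuous_fst).add (continuous_snd.pow 2)
  by_cases hp : p = 0
  · subst hp
    have h0 : u k (0 : (Fin n → ℝ) × ℝ).1 (0 : (Fin n → ℝ) × ℝ).2 = 0 := by
      simp [u, show k ≠ 0 by omega]
    change Tendsto (fun p : (Fin n → ℝ) × ℝ => u k p.1 p.2) (𝓝 0)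
      (𝓝 (u k (0 : (Fin n → ℝ) × ℝ).1 (0 : (Fin n → ℝ) × ℝ).2))
    rw [h0]
    apply squeeze_zero_norm' (a := fun p : (Fin n → ℝ) × ℝ =>
      4 * |Real.sqrt (nsq p.1 + p.2 ^ 2) * Real.log (Real.sqrt (nsq p.1 + p.2 ^ 2))|)
    · filter_upwards [Metric.ball_mem_nhds (0 : (Fin n → ℝ) × ℝ) one_pos] with p hp
      rw [Real.norm_eq_abs]
      apply u_bound k hk
      rw [mem_ball_zero_iff] at hp
      exact ((norm_snd_le p).trans hp.le)
    · have hc : Continuous fun p : (Fin n → ℝ) × ℝ =>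
          4 * |Real.sqrt (nsq p.1 + p.2 ^ 2) * Real.log (Real.sqrt (nsq p.1 + p.2 ^ 2))| := by
        have h1 : Continuous fun p : (Fin n → ℝ) × ℝ => Real.sqrt (nsq p.1 + p.2 ^ 2) :=
          Real.continuous_sqrt.comp hqc
        exact continuous_const.mul (Real.continuous_mul_log.comp h1).abs
      have h2 := hc.tendsto 0
      simpa [nsq_zero] using h2
  · have hpos : 0 < nsq p.1 + p.2 ^ 2 := by
      by_cases h1 : p.1 = 0
      · have h2 : p.2 ≠ 0 := fun h2 => hp (Prod.ext h1 h2)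
        have := nsq_nonneg p.1
        positivity
      · have := nsq_pos h1
        positivity
    have hlog : ContinuousAt (fun p : (Fin n → ℝ) × ℝ => Real.log (nsq p.1 + p.2 ^ 2)) p :=
      hqc.continuousAt.log hpos.ne'
    exact ((continuous_snd.pow k).continuousAt).mul
      ((M_contDiff.continuous.continuousAt).comp hlog)

theorem u_zero_right (k : ℕ) (hk : 1 ≤ k) (x : Fin n → ℝ) : u k x 0 = 0 := by
  simp [u, show k ≠ 0 by omega]

theorem posQuad (g : SLn n) :
    PosQuad (fun p : (Fin n → ℝ) × ℝ => nsq (mv g p.1) + p.2 ^ 2) where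
  smooth := by
    have h : ContDiff ℝ ∞ fun p : (Fin n → ℝ) × ℝ => nsq (mvL g p.1) :=
      nsq_contDiff.comp ((mvL g).contDiff.comp contDiff_fst)
    exact h.add (contDiff_snd.pow 2)
  hom := by
    intro r _ z
    simp only [Prod.smul_fst, Prod.smul_snd, mv_smul, nsq_smul, smul_eq_mul]
    ring
  pos := by
    intro p hp
    by_cases h1 : p.1 = 0
    · have h2 : p.2 ≠ 0 := fun h2 => hp (Prod.ext h1 h2)
      have := nsq_nonneg (mv g p.1)
      positivity
    · have := nsq_pos (fun h => h1 (mv_inj g h))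
      positivity

/-- the defect function, on `(Fin n → ℝ) × ℝ` -/
noncomputable def del (k : ℕ) (g : SLn n) (p : (Fin n → ℝ) × ℝ) : ℝ :=
  u k p.1 p.2 - u k (mv g p.1) p.2

theorem del_eq (k : ℕ) (g : SLn n) (p : (Fin n → ℝ) × ℝ) :
    del k g p = p.2 ^ k * (M (Real.log (nsq (mv 1 p.1) + p.2 ^ 2)) -
      M (Real.log (nsq (mv g p.1) + p.2 ^ 2))) := by
  simp only [del, u, mv_one]
  ring

theorem del_reg (k : ℕ) (hk : 1 ≤ k) (g : SLn n) :
    ContDiff ℝ k (del k g) ∧ HasFDerivAt (del k g) (0 : (Fin n → ℝ) × ℝ →L[ℝ] ℝ) 0 := by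
  have h := contDiff_mul (posQuad (1 : SLn n)) (posQuad g) k hk
    (P := fun p : (Fin n → ℝ) × ℝ => p.2 ^ k) (contDiff_snd.pow k) (fun r _ z => by
      simp only [Prod.smul_snd, smul_eq_mul, mul_pow])
  have he : del k g = fun p : (Fin n → ℝ) × ℝ => p.2 ^ k *
      (M (Real.log (nsq (mv 1 p.1) + p.2 ^ 2)) - M (Real.log (nsq (mv g p.1) + p.2 ^ 2))) :=
    funext (del_eq k g)
  rw [he]
  exact h

/-- coordinates used to write down the action. -/
structure Coord (n : ℕ) (E : Type) [NormedAddCommGroup E] [NormedSpace ℝ E] where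
  X : E →L[ℝ] (Fin n → ℝ)
  inc : (Fin n → ℝ) →L[ℝ] E
  Y : E →L[ℝ] ℝ
  e₁ : E
  e₂ : E
  X_inc : ∀ x, X (inc x) = x
  Y_inc : ∀ x, Y (inc x) = 0
  X_e₁ : X e₁ = 0
  X_e₂ : X e₂ = 0
  Y_e₁ : Y e₁ = 1
  Y_e₂ : Y e₂ = 0
  e₂_ne : e₂ ≠ 0

namespace Coord

variable {E : Type} [NormedAddCommGroup E] [NormedSpace ℝ E] (D : Coord n E) (k : ℕ)

/-- the action -/
noncomputable def act (g : SLn n) (z : E) : E :=
  z + D.inc (mv g (D.X z) - D.X z) + (del k g (D.X z, D.Y z)) • D.e₂

theorem X_act (g : SLn n) (z : E) : D.X (D.act k g z) = mv g (D.X z) := by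
  simp [act, D.X_inc, D.X_e₂]

theorem Y_act (g : SLn n) (z : E) : D.Y (D.act k g z) = D.Y z := by
  simp [act, D.Y_inc, D.Y_e₂]

theorem act_one (z : E) : D.act k 1 z = z := by
  simp [act, mv_one, del]

theorem act_mul (g h : SLn n) (z : E) : D.act k (g * h) z = D.act k g (D.act k h z) := by
  conv_rhs => rw [act]
  rw [D.X_act, D.Y_act]
  simp only [act, del, mv_mul, map_sub]
  module

theorem act_zero (g : SLn n) : D.act k g 0 = 0 := by
  simp [act, mv_zero, del]

theorem act_continuous (hk : 1 ≤ k) :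
    Continuous fun p : SLn n × E => D.act k p.1 p.2 := by
  have hmv : Continuous fun p : SLn n × E => mv p.1 (D.X p.2) :=
    continuous_mv.comp (continuous_fst.prodMk (D.X.continuous.comp continuous_snd))
  have hu1 : Continuous fun p : SLn n × E => u k (D.X p.2) (D.Y p.2) :=
    (u_continuous k hk).comp ((D.X.continuous.comp continuous_snd).prodMk
      (D.Y.continuous.comp continuous_snd))
  have hu2 : Continuous fun p : SLn n × E => u k (mv p.1 (D.X p.2)) (D.Y p.2) :=
    (u_continuous k hk).comp (hmv.prodMk (D.Y.continuous.comp continuous_snd))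
  unfold act del
  exact (continuous_snd.add (D.inc.continuous.comp
    (hmv.sub (D.X.continuous.comp continuous_snd)))).add ((hu1.sub hu2).smul continuous_const)

theorem act_contDiff (hk : 1 ≤ k) (g : SLn n) : ContDiff ℝ k (D.act k g) := by
  have h1 : ContDiff ℝ k fun z : E => del k g (D.X z, D.Y z) :=
    (del_reg k hk g).1.comp (D.X.contDiff.prodMk D.Y.contDiff)
  have h2 : ContDiff ℝ k fun z : E => D.inc (mvL g (D.X z) - D.X z) :=
    D.inc.contDiff.comp (((mvL g).contDiff.comp D.X.contDiff).sub D.X.contDiff)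
  exact (contDiff_id.add h2).add (h1.smul contDiff_const)

/-- the linear part -/
noncomputable def lin (g : SLn n) : E →L[ℝ] E :=
  ContinuousLinearMap.id ℝ E + D.inc.comp ((mvL g).comp D.X - D.X)

theorem lin_apply (g : SLn n) (z : E) : D.lin g z = z + D.inc (mv g (D.X z) - D.X z) := rfl

theorem hasFDerivAt_act (hk : 1 ≤ k) (g : SLn n) :
    HasFDerivAt (D.act k g) (D.lin g) 0 := by
  have h0 : HasFDerivAt (fun z : E => (D.X z, D.Y z)) (D.X.prod D.Y) 0 :=
    (D.X.hasFDerivAt).prodMk D.Y.hasFDerivAt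
  have h1 : HasFDerivAt (fun z : E => del k g (D.X z, D.Y z)) (0 : E →L[ℝ] ℝ) 0 := by
    have h2 : HasFDerivAt (del k g) (0 : (Fin n → ℝ) × ℝ →L[ℝ] ℝ) (D.X (0 : E), D.Y (0 : E)) := by
      have := (del_reg k hk g).2
      rw [map_zero, map_zero]
      exact this
    have h3 := h2.comp (0 : E) h0
    rw [ContinuousLinearMap.zero_comp] at h3
    exact h3
  have h4 : HasFDerivAt (fun z : E => D.lin g z) (D.lin g) 0 := (D.lin g).hasFDerivAt
  have h5 := h4.add (h1.smul_const D.e₂)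
  have h6 : D.lin g + (0 : E →L[ℝ] ℝ).smulRight D.e₂ = D.lin g := by
    ext z; simp
  rw [h6] at h5
  exact h5

end Coord

/-- a diagonal element `diag(..., e^t, ..., e^{-t}, ...)`. -/
noncomputable def dg (i j : Fin n) (hij : i ≠ j) (t : ℝ) : SLn n :=
  ⟨Matrix.diagonal fun l => if l = i then Real.exp t else if l = j then Real.exp (-t) else 1, by
    rw [Matrix.det_diagonal]
    have h1 : ∀ l : Fin n, (if l = i then Real.exp t else if l = j then Real.exp (-t) else 1)
        = (if l = i then Real.exp t else 1) * (if l = j then Real.exp (-t) else 1) := by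
      intro l
      by_cases hi : l = i
      · subst hi; simp [hij]
      · simp [hi]
    simp_rw [h1]
    rw [Finset.prod_mul_distrib]
    simp [Finset.prod_ite_eq', ← Real.exp_add]⟩

theorem mv_dg (i j : Fin n) (hij : i ≠ j) (t : ℝ) (x : Fin n → ℝ) :
    mv (dg i j hij t) x i = Real.exp t * x i := by
  simp [mv, dg, Matrix.mulVec_diagonal]

theorem mv_dg_single (i j : Fin n) (hij : i ≠ j) (t : ℝ) (c : ℝ) :
    mv (dg i j hij t) (Pi.single i c) = Real.exp t • Pi.single i c := by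
  ext l
  simp only [mv, dg, Matrix.mulVec_diagonal, Pi.smul_apply, smul_eq_mul]
  by_cases hl : l = i
  · subst hl; simp
  · simp [Pi.single_eq_of_ne hl]

theorem continuous_dg (i j : Fin n) (hij : i ≠ j) : Continuous (dg i j hij) := by
  apply continuous_induced_rng.mpr
  apply Continuous.matrix_diagonal
  apply continuous_pi
  intro l
  by_cases hi : l = i
  · simp only [hi, if_true]; exact Real.continuous_exp
  · simp only [hi, if_false]
    by_cases hj : l = j
    · simp only [hj, if_true]; exact Real.continuous_exp.comp continuous_neg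
    · simp only [hj, if_false]; exact continuous_const

theorem dg_zero (i j : Fin n) (hij : i ≠ j) : dg i j hij 0 = 1 := by
  apply Subtype.ext
  simp only [dg, neg_zero, Real.exp_zero, ite_self]
  exact Matrix.diagonal_one

theorem exists_dg (i j : Fin n) (hij : i ≠ j) {N : Set (SLn n)} (hN : N ∈ 𝓝 (1 : SLn n)) :
    ∃ t < 0, dg i j hij t ∈ N := by
  have h := (continuous_dg i j hij).tendsto 0
  rw [dg_zero] at h
  have h2 := h hN
  rw [mem_map, Metric.mem_nhds_iff] at h2
  obtain ⟨ε, hε, hb⟩ := h2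
  refine ⟨-(ε / 2), by linarith, hb ?_⟩
  rw [Metric.mem_ball, dist_zero_right, norm_neg, Real.norm_of_nonneg (by positivity)]
  linarith

theorem fixed_zero (hn : 2 ≤ n) {N : Set (SLn n)} (hN : N ∈ 𝓝 (1 : SLn n)) (w : Fin n → ℝ)
    (h : ∀ g ∈ N, mv g w = w) : w = 0 := by
  ext i
  have : Nontrivial (Fin n) := Fin.nontrivial_iff_two_le.mpr hn
  obtain ⟨j, hj⟩ := exists_ne i
  obtain ⟨t, ht, hmem⟩ := exists_dg i j hj.symm hN
  have h1 := congrFun (h _ hmem) i
  rw [mv_dg] at h1
  have h2 : Real.exp t < 1 := Real.exp_lt_one_iff.mpr ht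
  have h3 : (Real.exp t - 1) * w i = 0 := by linarith
  rcases mul_eq_zero.mp h3 with h4 | h4
  · linarith
  · simpa using h4

end Pool.Agent.X183.SLN
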