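import Mathlib

/-!
# Flatness criterion for `C^j` regularity at the origin, and scaling bounds
-/

open Filter Topology Set
open scoped ContDiff

namespace Pool.Agent.X183.SLN

universe v

/-- iterated derivatives of order `i ≤ j` are `o(|z|^(j-i))` at `0`. -/
def FlatTo {E G : Type v} [NormedAddCommGroup E] [NormedSpace ℝ E]
    [NormedAddCommGroup G] [NormedSpace ℝ G] (j : ℕ) (F : E → G) : Prop :=
  ∀ i ≤ j, ∀ ε > 0, ∃ δ > 0, ∀ z : E, z ≠ 0 → ‖z‖ < δ →
    ‖iteratedFDeriv ℝ i F z‖ ≤ ε * ‖z‖ ^ (j - i)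

theorem contDiff_of_flat {E : Type v} [NormedAddCommGroup E] [NormedSpace ℝ E] :
    ∀ (j : ℕ) {G : Type v} [NormedAddCommGroup G] [NormedSpace ℝ G] (F : E → G),
      ContDiffOn ℝ ∞ F {0}ᶜ → F 0 = 0 → FlatTo j F → ContDiff ℝ j F := by
  intro j
  induction j with
  | zero =>
    intro G _ _ F hF h0 hfl
    rw [Nat.cast_zero, contDiff_zero, continuous_iff_continuousAt]
    intro z
    by_cases hz : z = 0
    · subst hz
      rw [Metric.continuousAt_iff]
      intro ε hε
      obtain ⟨δ, hδ, h⟩ := hfl 0 le_rfl (ε / 2) (by positivity)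
      refine ⟨δ, hδ, fun {w} hw => ?_⟩
      rw [h0, dist_zero_right]
      by_cases hw0 : w = 0
      · rw [hw0, h0, norm_zero]; exact hε
      · have := h w hw0 (by simpa using hw)
        rw [norm_iteratedFDeriv_zero] at this
        simp only [Nat.sub_self, pow_zero, mul_one] at this
        linarith
    · exact (hF.contDiffAt (isOpen_compl_singleton.mem_nhds hz)).continuousAt
  | succ j ih =>
    intro G _ _ F hF h0 hfl
    have hopen : IsOpen ({0}ᶜ : Set E) := isOpen_compl_singleton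
    have hd0 : HasFDerivAt F (0 : E →L[ℝ] G) 0 := by
      rw [hasFDerivAt_iff_isLittleO_nhds_zero, Asymptotics.isLittleO_iff]
      intro c hc
      obtain ⟨δ, hδ, h⟩ := hfl 0 (Nat.zero_le _) c hc
      filter_upwards [Metric.ball_mem_nhds (0 : E) (lt_min hδ one_pos)] with w hw
      rw [mem_ball_zero_iff, lt_min_iff] at hw
      by_cases hw0 : w = 0
      · simp [hw0]
      · have h1 := h w hw0 hw.1
        rw [norm_iteratedFDeriv_zero] at h1
        simp only [zero_add, h0, sub_zero, zero_apply]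
        refine h1.trans ?_
        gcongr
        calc ‖w‖ ^ (j + 1 - 0) = ‖w‖ ^ j * ‖w‖ := by rw [Nat.sub_zero, pow_succ]
          _ ≤ 1 * ‖w‖ := by
              gcongr
              exact pow_le_one₀ (norm_nonneg _) hw.2.le
          _ = ‖w‖ := one_mul _
    have hdiff : Differentiable ℝ F := by
      intro z
      by_cases hz : z = 0
      · rw [hz]; exact hd0.differentiableAt
      · exact (hF.contDiffAt (hopen.mem_nhds hz)).differentiableAt (by simp)
    rw [Nat.cast_add, Nat.cast_one, contDiff_succ_iff_fderiv]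
    refine ⟨hdiff, fun h => by simp at h, ?_⟩
    apply ih (fderiv ℝ F)
    · exact hF.fderiv_of_isOpen hopen (by simp)
    · exact hd0.fderiv
    · intro i hi ε hε
      obtain ⟨δ, hδ, h⟩ := hfl (i + 1) (by omega) ε hε
      refine ⟨δ, hδ, fun z hz hzδ => ?_⟩
      have := h z hz hzδ
      rw [norm_iteratedFDeriv_fderiv]
      rwa [show j + 1 - (i + 1) = j - i by omega] at this

/-- Scaling bound. -/
theorem hom_bound {E : Type*} [NormedAddCommGroup E] [NormedSpace ℝ E] [ProperSpace E]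
    (j : ℕ) (F : E → ℝ) (hF : ContDiffOn ℝ ∞ F {0}ᶜ) (c : ℝ → ℝ)
    (hs : ∀ r : ℝ, 0 < r → ∀ z : E, z ≠ 0 → F (r • z) = r ^ j * F z + c r) (i : ℕ)
    (hi : 1 ≤ i ∨ ∀ r, c r = 0) :
    ∃ C : ℝ, 0 ≤ C ∧ ∀ z : E, z ≠ 0 → ‖iteratedFDeriv ℝ i F z‖ * ‖z‖ ^ i ≤ C * ‖z‖ ^ j := by
  have hopen : IsOpen ({0}ᶜ : Set E) := isOpen_compl_singleton
  have hcont : ContinuousOn (fun z => ‖iteratedFDeriv ℝ i F z‖) (Metric.sphere (0 : E) 1) := by
    have h1 := (hF.continuousOn_iteratedFDerivWithin (m := i) (by exact_mod_cast le_top)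
      hopen.uniqueDiffOn).norm
    have h2 : ContinuousOn (fun z => ‖iteratedFDeriv ℝ i F z‖) ({0}ᶜ : Set E) := by
      refine h1.congr fun z hz => ?_
      simp only
      rw [iteratedFDerivWithin_of_isOpen i hopen hz]
    refine h2.mono fun z hz => ?_
    have : ‖z‖ = 1 := by simpa using hz
    intro h
    rw [mem_singleton_iff] at h
    rw [h, norm_zero] at this
    exact zero_ne_one this
  obtain ⟨C, hC⟩ := (isCompact_sphere (0 : E) 1).bddAbove_image hcont
  refine ⟨max C 0, le_max_right _ _, fun z hz => ?_⟩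
  have hr : 0 < ‖z‖ := norm_pos_iff.mpr hz
  set r := ‖z‖ with hrdef
  have hne : (r⁻¹ : ℝ) ≠ 0 := inv_ne_zero hr.ne'
  -- the scaled function
  let g : E ≃L[ℝ] E := ContinuousLinearEquiv.smulLeft (Units.mk0 (r⁻¹) hne)
  have hg : ∀ w, g w = r⁻¹ • w := fun w => rfl
  have hpre : (g ⁻¹' ({0}ᶜ : Set E)) = {0}ᶜ := by
    ext w
    simp [hg, hr.ne']
  have hw : r⁻¹ • z ≠ 0 := smul_ne_zero hne hz
  have hsph : r⁻¹ • z ∈ Metric.sphere (0 : E) 1 := by
    simp [norm_smul, ← hrdef, abs_of_pos hr, hr.ne']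
  have key : iteratedFDerivWithin ℝ i F {0}ᶜ z
      = iteratedFDerivWithin ℝ i (fun w => r ^ j * (F ∘ g) w + c r) {0}ᶜ z := by
    apply iteratedFDerivWithin_congr _ (mem_compl_singleton_iff.mpr hz)
    intro w hw0
    have hw0' : w ≠ 0 := hw0
    have := hs r hr (r⁻¹ • w) (smul_ne_zero hne hw0')
    rw [smul_smul, mul_inv_cancel₀ hr.ne', one_smul] at this
    simp only [Function.comp_apply, hg]
    exact this
  have hFg : ContDiffOn ℝ ∞ (F ∘ g) {0}ᶜ := by
    rw [← hpre]
    exact hF.comp_continuousLinearMap (g : E →L[ℝ] E)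
  have hbound : ‖iteratedFDerivWithin ℝ i (F ∘ g) {0}ᶜ z‖ ≤ C * (r⁻¹) ^ i := by
    have h1 := g.iteratedFDerivWithin_comp_right F hopen.uniqueDiffOn
      (x := z) (by simpa [hg] using hw) i
    rw [hpre] at h1
    rw [h1]
    refine (ContinuousMultilinearMap.norm_compContinuousLinearMap_le _ _).trans ?_
    have h2 : ‖iteratedFDerivWithin ℝ i F {0}ᶜ (g z)‖ ≤ C := by
      rw [iteratedFDerivWithin_of_isOpen i hopen (by simpa [hg] using hw), hg]
      exact hC ⟨_, hsph, rfl⟩
    have h3 : ‖(g : E →L[ℝ] E)‖ ≤ r⁻¹ := by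
      refine ContinuousLinearMap.opNorm_le_bound _ (by positivity) fun w => ?_
      change ‖r⁻¹ • w‖ ≤ _
      rw [norm_smul, Real.norm_of_nonneg (by positivity)]
    simp only [Finset.prod_const, Finset.card_univ, Fintype.card_fin]
    have hC0 : 0 ≤ C := (norm_nonneg _).trans h2
    gcongr
  have hmain : ‖iteratedFDeriv ℝ i F z‖ ≤ r ^ j * (C * (r⁻¹) ^ i) := by
    rw [← iteratedFDerivWithin_of_isOpen i hopen (mem_compl_singleton_iff.mpr hz), key]
    have hcd : ContDiffOn ℝ i (F ∘ g) {0}ᶜ := hFg.of_le (by exact_mod_cast le_top)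
    have hadd : iteratedFDerivWithin ℝ i (fun w => r ^ j * (F ∘ g) w + c r) {0}ᶜ z
        = iteratedFDerivWithin ℝ i (fun w => r ^ j * (F ∘ g) w) {0}ᶜ z := by
      rcases hi with hi | hi
      · have h4 : iteratedFDerivWithin ℝ i ((fun w => r ^ j * (F ∘ g) w) + fun _ => c r) {0}ᶜ z
            = iteratedFDerivWithin ℝ i (fun w => r ^ j * (F ∘ g) w) {0}ᶜ z +
              iteratedFDerivWithin ℝ i (fun _ => c r) {0}ᶜ z := by
          apply iteratedFDerivWithin_add_apply
          · exact (contDiffOn_const.mul hcd).contDiffWithinAt (mem_compl_singleton_iff.mpr hz)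
          · exact contDiffWithinAt_const
          · exact hopen.uniqueDiffOn
          · exact hz
        have h5 : iteratedFDerivWithin ℝ i (fun _ : E => c r) {0}ᶜ z = 0 := by
          rw [iteratedFDerivWithin_const_of_ne (by omega)]
          rfl
        rw [h5, add_zero] at h4
        exact h4
      · simp [hi]
    rw [hadd]
    have hsm : iteratedFDerivWithin ℝ i (fun w => r ^ j * (F ∘ g) w) {0}ᶜ z
        = r ^ j • iteratedFDerivWithin ℝ i (F ∘ g) {0}ᶜ z := by
      have := iteratedFDerivWithin_const_smul_apply (𝕜 := ℝ) (i := i) (a := r ^ j)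
        (hcd.contDiffWithinAt (mem_compl_singleton_iff.mpr hz)) hopen.uniqueDiffOn
        (mem_compl_singleton_iff.mpr hz)
      exact this
    rw [hsm, norm_smul, Real.norm_of_nonneg (by positivity)]
    gcongr
  calc ‖iteratedFDeriv ℝ i F z‖ * r ^ i ≤ r ^ j * (C * (r⁻¹) ^ i) * r ^ i := by gcongr
    _ = C * r ^ j * ((r⁻¹) ^ i * r ^ i) := by ring
    _ = C * r ^ j := by rw [← mul_pow, inv_mul_cancel₀ hr.ne', one_pow, mul_one]
    _ ≤ max C 0 * r ^ j := by gcongr; exact le_max_left _ _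

end Pool.Agent.X183.SLN
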