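import Pool.Agent.X183.SLN.Flat

/-!
# The slowly varying function `M (log q)`
-/

open Filter Topology Set
open scoped ContDiff

namespace Pool.Agent.X183.SLN

/-- `M t = log (1 + t^2)`. -/
noncomputable def M (t : ℝ) : ℝ := Real.log (1 + t ^ 2)

theorem M_contDiff : ContDiff ℝ ∞ M := by
  unfold M
  apply ContDiff.log
  · fun_prop
  · intro t; positivity

theorem one_add_sq_ne (t : ℝ) : (1 + t ^ 2 : ℝ) ≠ 0 := by positivity

theorem deriv_M (t : ℝ) : deriv M t = 2 * t / (1 + t ^ 2) := by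
  unfold M
  have h : HasDerivAt (fun t : ℝ => 1 + t ^ 2) (2 * t) t := by
    simpa using ((hasDerivAt_pow 2 t).const_add 1)
  exact (h.log (one_add_sq_ne t)).deriv

theorem iteratedDeriv_M (i : ℕ) : ∃ p : Polynomial ℝ, p.natDegree < 2 * (i + 1) ∧
    ∀ t, iteratedDeriv (i + 1) M t = p.eval t / (1 + t ^ 2) ^ (i + 1) := by
  induction i with
  | zero =>
    refine ⟨Polynomial.C 2 * Polynomial.X, ?_, fun t => ?_⟩
    · refine lt_of_le_of_lt (Polynomial.natDegree_C_mul_le _ _) ?_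
      simp
    · rw [zero_add, iteratedDeriv_one, deriv_M]
      simp
  | succ i ih =>
    obtain ⟨p, hp, h⟩ := ih
    refine ⟨Polynomial.derivative p * (1 + Polynomial.X ^ 2) -
      Polynomial.C (2 * ((i : ℝ) + 1)) * Polynomial.X * p, ?_, fun t => ?_⟩
    · have h1 : (Polynomial.derivative p * (1 + Polynomial.X ^ 2)).natDegree ≤ 2 * (i + 1) + 1 := by
        refine Polynomial.natDegree_mul_le.trans ?_
        have h2 := Polynomial.natDegree_derivative_le p
        have h3 : (1 + Polynomial.X ^ 2 : Polynomial ℝ).natDegree ≤ 2 := by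
          refine (Polynomial.natDegree_add_le _ _).trans ?_
          simp
        omega
      have h2 : (Polynomial.C (2 * ((i : ℝ) + 1)) * Polynomial.X * p).natDegree
          ≤ 2 * (i + 1) + 1 := by
        refine Polynomial.natDegree_mul_le.trans ?_
        have h3 : (Polynomial.C (2 * ((i : ℝ) + 1)) * Polynomial.X : Polynomial ℝ).natDegree ≤ 1 := by
          refine (Polynomial.natDegree_C_mul_le _ _).trans ?_
          simp
        omega
      refine lt_of_le_of_lt (Polynomial.natDegree_sub_le _ _) ?_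
      rw [max_lt_iff]
      constructor <;> omega
    · rw [iteratedDeriv_succ]
      have hfun : iteratedDeriv (i + 1) M = fun t => p.eval t / (1 + t ^ 2) ^ (i + 1) := funext h
      rw [hfun]
      have hq : HasDerivAt (fun t : ℝ => (1 + t ^ 2) ^ (i + 1))
          ((i + 1 : ℕ) * (1 + t ^ 2) ^ i * (2 * t)) t := by
        have h0 : HasDerivAt (fun t : ℝ => 1 + t ^ 2) (2 * t) t := by
          simpa using ((hasDerivAt_pow 2 t).const_add 1)
        simpa using h0.fun_pow (i + 1)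
      have hd := (p.hasDerivAt t).fun_div hq (pow_ne_zero _ (one_add_sq_ne t))
      rw [hd.deriv]
      have hne := one_add_sq_ne t
      rw [div_eq_div_iff (by positivity) (by positivity)]
      simp only [Polynomial.eval_sub, Polynomial.eval_mul, Polynomial.eval_add, Polynomial.eval_one,
        Polynomial.eval_pow, Polynomial.eval_X, Polynomial.eval_C]
      push_cast
      ring

theorem tendsto_iteratedDeriv_M (i : ℕ) (hi : 1 ≤ i) :
    Tendsto (iteratedDeriv i M) atBot (𝓝 0) := by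
  obtain ⟨i, rfl⟩ := Nat.exists_eq_add_of_le' hi
  obtain ⟨p, hp, h⟩ := iteratedDeriv_M i
  have h1 : Tendsto (fun t : ℝ => (p.comp (-Polynomial.X)).eval t /
      ((1 + Polynomial.X ^ 2 : Polynomial ℝ) ^ (i + 1)).eval t) atTop (𝓝 0) := by
    apply Polynomial.div_tendsto_atTop_zero_of_degree_lt
    have hdeg : ((1 + Polynomial.X ^ 2 : Polynomial ℝ)).natDegree = 2 := by
      rw [add_comm]
      simpa using Polynomial.natDegree_X_pow_add_C (n := 2) (r := (1 : ℝ))
    have hne : ((1 + Polynomial.X ^ 2 : Polynomial ℝ) ^ (i + 1)) ≠ 0 := by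
      apply pow_ne_zero
      intro h0
      rw [h0] at hdeg
      simp at hdeg
    have h2 : ((1 + Polynomial.X ^ 2 : Polynomial ℝ) ^ (i + 1)).natDegree = (i + 1) * 2 := by
      rw [Polynomial.natDegree_pow, hdeg]
    have h3 : (p.comp (-Polynomial.X)).natDegree ≤ p.natDegree := by
      refine Polynomial.natDegree_comp_le.trans ?_
      rw [Polynomial.natDegree_neg, Polynomial.natDegree_X, mul_one]
    apply Polynomial.degree_lt_degree
    omega
  have h2 := h1.comp tendsto_neg_atBot_atTop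
  refine h2.congr fun t => ?_
  rw [h t]
  simp [Polynomial.eval_comp]

section

variable {E : Type*} [NormedAddCommGroup E] [NormedSpace ℝ E] [ProperSpace E]

/-- a positive definite smooth function homogeneous of degree two. -/
structure PosQuad (q : E → ℝ) : Prop where
  smooth : ContDiff ℝ ∞ q
  hom : ∀ r : ℝ, 0 < r → ∀ z : E, q (r • z) = r ^ 2 * q z
  pos : ∀ z : E, z ≠ 0 → 0 < q z

omit [ProperSpace E] in
theorem PosQuad.zero {q : E → ℝ} (hq : PosQuad q) : q 0 = 0 := by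
  have := hq.hom 2 (by norm_num) 0
  rw [smul_zero] at this
  linarith

omit [ProperSpace E] in
theorem PosQuad.tendsto {q : E → ℝ} (hq : PosQuad q) :
    Tendsto (fun z => Real.log (q z)) (𝓝[≠] 0) atBot := by
  apply Real.tendsto_log_nhdsGT_zero.comp
  rw [tendsto_nhdsWithin_iff]
  constructor
  · have h := (hq.smooth.continuous.tendsto 0)
    rw [hq.zero] at h
    exact h.mono_left nhdsWithin_le_nhds
  · filter_upwards [self_mem_nhdsWithin] with z hz using hq.pos z hz

omit [ProperSpace E] in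
theorem PosQuad.log_lt {q : E → ℝ} (hq : PosQuad q) (T : ℝ) :
    ∃ δ > 0, ∀ z : E, z ≠ 0 → ‖z‖ < δ → Real.log (q z) < T := by
  have h := hq.tendsto.eventually (eventually_lt_atBot T)
  rw [eventually_nhdsWithin_iff, Metric.eventually_nhds_iff] at h
  obtain ⟨δ, hδ, h⟩ := h
  refine ⟨δ, hδ, fun z hz hzδ => h (by simpa using hzδ) hz⟩

omit [ProperSpace E] in
theorem PosQuad.log_contDiffOn {q : E → ℝ} (hq : PosQuad q) :
    ContDiffOn ℝ ∞ (fun z => Real.log (q z)) {0}ᶜ := by
  apply ContDiffOn.log hq.smooth.contDiffOn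
  intro z hz
  exact (hq.pos z hz).ne'

theorem PosQuad.log_bound {q : E → ℝ} (hq : PosQuad q) (i : ℕ) (hi : 1 ≤ i) :
    ∃ C : ℝ, 0 ≤ C ∧ ∀ z : E, z ≠ 0 →
      ‖iteratedFDeriv ℝ i (fun z => Real.log (q z)) z‖ * ‖z‖ ^ i ≤ C := by
  obtain ⟨C, hC0, hC⟩ := hom_bound (E := E) 0 (fun z => Real.log (q z)) hq.log_contDiffOn
    (fun r => 2 * Real.log r) (fun r hr z hz => by
      rw [hq.hom r hr z, Real.log_mul (by positivity) (hq.pos z hz).ne', Real.log_pow]
      push_cast; ring) i (Or.inl hi)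
  refine ⟨C, hC0, fun z hz => ?_⟩
  have := hC z hz
  simpa using this

theorem PosQuad.Mlog_bound {q : E → ℝ} (hq : PosQuad q) (i : ℕ) (hi : 1 ≤ i) (ε : ℝ)
    (hε : 0 < ε) : ∃ δ > 0, ∀ z : E, z ≠ 0 → ‖z‖ < δ →
      ‖iteratedFDeriv ℝ i (fun z => M (Real.log (q z))) z‖ * ‖z‖ ^ i ≤ ε := by
  have hopen : IsOpen ({0}ᶜ : Set E) := isOpen_compl_singleton
  -- constants
  have hKex : ∃ K : ℝ, 1 ≤ K ∧ ∀ l, 1 ≤ l → l ≤ i → ∀ z : E, z ≠ 0 →
      ‖iteratedFDeriv ℝ l (fun z => Real.log (q z)) z‖ * ‖z‖ ^ l ≤ K := by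
    have h : ∀ l : ℕ, ∃ C : ℝ, 0 ≤ C ∧ (1 ≤ l → ∀ z : E, z ≠ 0 →
        ‖iteratedFDeriv ℝ l (fun z => Real.log (q z)) z‖ * ‖z‖ ^ l ≤ C) := by
      intro l
      by_cases hl : 1 ≤ l
      · obtain ⟨C, h0, h⟩ := hq.log_bound l hl
        exact ⟨C, h0, fun _ => h⟩
      · exact ⟨0, le_rfl, fun h => absurd h hl⟩
    choose C hC0 hC using h
    refine ⟨1 + ∑ l ∈ Finset.range (i + 1), C l, ?_, fun l hl hli z hz => ?_⟩
    · have : 0 ≤ ∑ l ∈ Finset.range (i + 1), C l := Finset.sum_nonneg fun l _ => hC0 l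
      linarith
    · have h1 := hC l hl z hz
      have h2 : C l ≤ ∑ l ∈ Finset.range (i + 1), C l :=
        Finset.single_le_sum (fun l _ => hC0 l) (Finset.mem_range.mpr (by omega))
      linarith
  obtain ⟨K, hK1, hK⟩ := hKex
  set C : ℝ := ε / (i.factorial * K ^ i) with hCdef
  have hCpos : 0 < C := by
    have : 0 < K := by linarith
    positivity
  -- derivative bounds for M near -∞
  have hT : ∃ T : ℝ, ∀ l, 1 ≤ l → l ≤ i → ∀ t < T, |iteratedDeriv l M t| ≤ C := by
    have h : ∀ᶠ t in atBot, ∀ l ∈ Finset.Icc 1 i, |iteratedDeriv l M t| ≤ C := by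
      rw [eventually_all_finset]
      intro l hl
      rw [Finset.mem_Icc] at hl
      have h1 := (tendsto_iteratedDeriv_M l hl.1).abs
      rw [abs_zero] at h1
      exact h1.eventually_le_const hCpos
    rw [eventually_atBot] at h
    obtain ⟨T, hT⟩ := h
    exact ⟨T, fun l h1 h2 t ht => hT t ht.le l (Finset.mem_Icc.mpr ⟨h1, h2⟩)⟩
  obtain ⟨T, hT⟩ := hT
  obtain ⟨δ, hδ, hlog⟩ := hq.log_lt T
  refine ⟨δ, hδ, fun z hz hzδ => ?_⟩
  have hzpos : 0 < ‖z‖ := norm_pos_iff.mpr hz
  have hlt := hlog z hz hzδ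
  -- the shifted function
  let g : ℝ → ℝ := fun t => M t - M (Real.log (q z))
  let f : E → ℝ := fun z => Real.log (q z)
  have hg : ContDiff ℝ ∞ g := M_contDiff.sub contDiff_const
  have hf : ContDiffOn ℝ ∞ f {0}ᶜ := hq.log_contDiffOn
  have hz' : z ∈ ({0}ᶜ : Set E) := hz
  have hcomp := norm_iteratedFDerivWithin_comp_le (𝕜 := ℝ) (g := g) (f := f) (n := i) (s := {0}ᶜ)
    (t := Set.univ) (x := z) (N := ∞) hg.contDiffOn hf (by exact_mod_cast le_top)
    uniqueDiffOn_univ hopen.uniqueDiffOn (mapsTo_univ _ _) hz' (C := C) (D := K / ‖z‖)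
    (by
      intro l hl
      rw [iteratedFDerivWithin_univ, norm_iteratedFDeriv_eq_norm_iteratedDeriv]
      by_cases h0 : l = 0
      · subst h0
        rw [iteratedDeriv_zero]
        simp only [f, g, sub_self, norm_zero]
        exact hCpos.le
      · have h1 : iteratedDeriv l g (f z) = iteratedDeriv l M (f z) := by
          have h2 : iteratedDeriv l g (f z) = iteratedDeriv l (fun t => M t) (f z) -
              iteratedDeriv l (fun _ => M (Real.log (q z))) (f z) := by
            apply iteratedDeriv_fun_sub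
            · exact (M_contDiff.of_le (by exact_mod_cast le_top)).contDiffAt
            · exact contDiffAt_const
          rw [h2, iteratedDeriv_const]
          simp [h0]
        rw [h1, Real.norm_eq_abs]
        exact hT l (by omega) hl _ hlt)
    (by
      intro l h1 hl
      rw [iteratedFDerivWithin_of_isOpen l hopen hz', div_pow, le_div_iff₀ (by positivity)]
      refine (hK l h1 hl z hz).trans ?_
      exact le_self_pow₀ hK1 (by omega))
  have hder : iteratedFDeriv ℝ i (fun z => M (Real.log (q z))) z =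
      iteratedFDerivWithin ℝ i (g ∘ f) {0}ᶜ z := by
    have h1 : iteratedFDerivWithin ℝ i ((fun w => M (f w)) - fun _ => M (Real.log (q z))) {0}ᶜ z
            = iteratedFDerivWithin ℝ i (fun w => M (f w)) {0}ᶜ z -
              iteratedFDerivWithin ℝ i (fun _ => M (Real.log (q z))) {0}ᶜ z := by
      apply iteratedFDerivWithin_sub_apply
      · exact ((M_contDiff.comp_contDiffOn hf).of_le (by exact_mod_cast le_top)).contDiffWithinAt hz'
      · exact contDiffWithinAt_const
      · exact hopen.uniqueDiffOn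
      · exact hz'
    have h5 : iteratedFDerivWithin ℝ i (fun _ : E => M (Real.log (q z))) {0}ᶜ z = 0 := by
      rw [iteratedFDerivWithin_const_of_ne (by omega)]
      rfl
    rw [h5, sub_zero] at h1
    rw [iteratedFDerivWithin_of_isOpen i hopen hz'] at h1
    rw [iteratedFDerivWithin_of_isOpen i hopen hz'] at h1
    rw [iteratedFDerivWithin_of_isOpen i hopen hz']
    exact h1.symm
  rw [hder]
  calc ‖iteratedFDerivWithin ℝ i (g ∘ f) {0}ᶜ z‖ * ‖z‖ ^ i
      ≤ (i.factorial * C * (K / ‖z‖) ^ i) * ‖z‖ ^ i := by gcongr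
    _ = i.factorial * C * K ^ i := by
        rw [div_pow]; field_simp
    _ = ε := by
        rw [hCdef]
        have : 0 < K := by linarith
        field_simp
    _ ≤ ε := le_rfl

/-- difference of two such functions. -/
theorem diff_bound {q₁ q₂ : E → ℝ} (h₁ : PosQuad q₁) (h₂ : PosQuad q₂) (i : ℕ) (ε : ℝ)
    (hε : 0 < ε) : ∃ δ > 0, ∀ z : E, z ≠ 0 → ‖z‖ < δ →
      ‖iteratedFDeriv ℝ i (fun z => M (Real.log (q₁ z)) - M (Real.log (q₂ z))) z‖ * ‖z‖ ^ i ≤ ε := by
  have hopen : IsOpen ({0}ᶜ : Set E) := isOpen_compl_singleton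
  rcases Nat.eq_zero_or_pos i with hi | hi
  · subst hi
    -- zeroth order
    obtain ⟨C, hC0, hC⟩ := hom_bound (E := E) 0
      (fun z => Real.log (q₁ z) - Real.log (q₂ z)) (h₁.log_contDiffOn.sub h₂.log_contDiffOn)
      (fun _ => 0) (fun r hr z hz => by
        rw [h₁.hom r hr z, h₂.hom r hr z, Real.log_mul (by positivity) (h₁.pos z hz).ne',
          Real.log_mul (by positivity) (h₂.pos z hz).ne']
        ring) 0 (Or.inr fun _ => rfl)
    have hd := (tendsto_iteratedDeriv_M 1 le_rfl).abs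
    rw [abs_zero] at hd
    have hd2 := hd.eventually_le_const (show (0 : ℝ) < ε / (C + 1) by positivity)
    rw [eventually_atBot] at hd2
    obtain ⟨T, hT⟩ := hd2
    obtain ⟨δ₁, hδ₁, hl₁⟩ := h₁.log_lt T
    obtain ⟨δ₂, hδ₂, hl₂⟩ := h₂.log_lt T
    refine ⟨min δ₁ δ₂, lt_min hδ₁ hδ₂, fun z hz hzδ => ?_⟩
    rw [lt_min_iff] at hzδ
    rw [norm_iteratedFDeriv_zero, pow_zero, mul_one]
    have h3 := hC z hz
    rw [norm_iteratedFDeriv_zero, pow_zero, mul_one, mul_one] at h3
    have h4 : ‖M (Real.log (q₁ z)) - M (Real.log (q₂ z))‖ ≤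
        (ε / (C + 1)) * ‖Real.log (q₁ z) - Real.log (q₂ z)‖ := by
      apply Convex.norm_image_sub_le_of_norm_deriv_le (f := M) (s := Set.Iic T)
        (fun t _ => (M_contDiff.differentiable (by simp)) t) _ (convex_Iic T)
        (hl₂ z hz hzδ.2).le (hl₁ z hz hzδ.1).le
      intro t ht
      have := hT t ht
      rwa [iteratedDeriv_one] at this
    refine h4.trans ?_
    calc ε / (C + 1) * ‖Real.log (q₁ z) - Real.log (q₂ z)‖ ≤ ε / (C + 1) * (C + 1) := by
          gcongr; linarith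
      _ = ε := by field_simp
  · obtain ⟨δ₁, hδ₁, hb₁⟩ := h₁.Mlog_bound i hi (ε / 2) (by positivity)
    obtain ⟨δ₂, hδ₂, hb₂⟩ := h₂.Mlog_bound i hi (ε / 2) (by positivity)
    refine ⟨min δ₁ δ₂, lt_min hδ₁ hδ₂, fun z hz hzδ => ?_⟩
    rw [lt_min_iff] at hzδ
    have hz' : z ∈ ({0}ᶜ : Set E) := hz
    have hc : ∀ {q : E → ℝ}, PosQuad q → ContDiffAt ℝ i (fun z => M (Real.log (q z))) z := by
      intro q hq
      have h := (M_contDiff.comp_contDiffOn hq.log_contDiffOn).contDiffAt (hopen.mem_nhds hz')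
      exact h.of_le (by exact_mod_cast le_top)
    have hsub : iteratedFDeriv ℝ i (fun z => M (Real.log (q₁ z)) - M (Real.log (q₂ z))) z =
        iteratedFDeriv ℝ i (fun z => M (Real.log (q₁ z))) z -
        iteratedFDeriv ℝ i (fun z => M (Real.log (q₂ z))) z :=
      fun_iteratedFDeriv_sub_apply (hc h₁) (hc h₂)
    rw [hsub]
    calc ‖iteratedFDeriv ℝ i (fun z => M (Real.log (q₁ z))) z -
        iteratedFDeriv ℝ i (fun z => M (Real.log (q₂ z))) z‖ * ‖z‖ ^ i
        ≤ (‖iteratedFDeriv ℝ i (fun z => M (Real.log (q₁ z))) z‖ +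
          ‖iteratedFDeriv ℝ i (fun z => M (Real.log (q₂ z))) z‖) * ‖z‖ ^ i := by
            gcongr; exact norm_sub_le _ _
      _ ≤ ε / 2 + ε / 2 := by
          rw [add_mul]
          exact add_le_add (hb₁ z hz hzδ.1) (hb₂ z hz hzδ.2)
      _ = ε := by ring

end

section

variable {E : Type} [NormedAddCommGroup E] [NormedSpace ℝ E] [ProperSpace E]

/-- **Regularity**: `P * (M log q₁ - M log q₂)` is `C^k` if `P` is a smooth function, homogeneous
of degree `k ≥ 1`. Moreover its derivative at `0` vanishes. -/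
theorem flat_mul {q₁ q₂ P : E → ℝ} (h₁ : PosQuad q₁) (h₂ : PosQuad q₂) (k : ℕ)
    (hP : ContDiff ℝ ∞ P) (hPh : ∀ r : ℝ, 0 < r → ∀ z : E, P (r • z) = r ^ k * P z) :
    FlatTo k (fun z => P z * (M (Real.log (q₁ z)) - M (Real.log (q₂ z)))) := by
  have hopen : IsOpen ({0}ᶜ : Set E) := isOpen_compl_singleton
  intro i hik ε hε
  have hCex : ∀ l : ℕ, ∃ C : ℝ, 0 ≤ C ∧ ∀ z : E, z ≠ 0 →
      ‖iteratedFDeriv ℝ l P z‖ * ‖z‖ ^ l ≤ C * ‖z‖ ^ k := fun l =>
    hom_bound (E := E) k P hP.contDiffOn (fun _ => 0) (fun r hr z _ => by rw [hPh r hr z, add_zero])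
      l (Or.inr fun _ => rfl)
  choose C hC0 hC using hCex
  set S : ℝ := 1 + ∑ l ∈ Finset.range (i + 1), (i.choose l : ℝ) * C l with hS
  have hSpos : 0 < S := by
    have : 0 ≤ ∑ l ∈ Finset.range (i + 1), (i.choose l : ℝ) * C l :=
      Finset.sum_nonneg fun l _ => mul_nonneg (Nat.cast_nonneg _) (hC0 l)
    linarith
  have hδex : ∀ l : ℕ, ∃ δ > 0, ∀ z : E, z ≠ 0 → ‖z‖ < δ →
      ‖iteratedFDeriv ℝ l (fun z => M (Real.log (q₁ z)) - M (Real.log (q₂ z))) z‖ * ‖z‖ ^ l
        ≤ ε / S := fun l => diff_bound h₁ h₂ l (ε / S) (by positivity)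
  choose δ hδ hB using hδex
  obtain ⟨δ₀, hδ₀, hmin⟩ : ∃ δ₀ > 0, ∀ l ∈ Finset.range (i + 1), δ₀ ≤ δ l := by
    have hne : (Finset.range (i + 1)).Nonempty := ⟨0, by simp⟩
    refine ⟨(Finset.range (i + 1)).inf' hne δ, ?_, fun l hl => Finset.inf'_le _ hl⟩
    rw [gt_iff_lt, Finset.lt_inf'_iff]
    exact fun l _ => hδ l
  refine ⟨δ₀, hδ₀, fun z hz hzδ => ?_⟩
  have hz' : z ∈ ({0}ᶜ : Set E) := hz
  have hzpos : 0 < ‖z‖ := norm_pos_iff.mpr hz
  have hBsm : ContDiffOn ℝ ∞ (fun z => M (Real.log (q₁ z)) - M (Real.log (q₂ z))) {0}ᶜ :=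
    (M_contDiff.comp_contDiffOn h₁.log_contDiffOn).sub
      (M_contDiff.comp_contDiffOn h₂.log_contDiffOn)
  have hL := norm_iteratedFDerivWithin_mul_le (𝕜 := ℝ) (f := P)
    (g := fun z => M (Real.log (q₁ z)) - M (Real.log (q₂ z))) (s := {0}ᶜ) (N := ∞)
    hP.contDiffOn hBsm hopen.uniqueDiffOn hz' (n := i) (by exact_mod_cast le_top)
  rw [iteratedFDerivWithin_of_isOpen i hopen hz'] at hL
  have hsplit : ‖z‖ ^ k = ‖z‖ ^ (k - i) * ‖z‖ ^ i := by
    rw [← pow_add]; congr 1; omega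
  have hfin : ‖iteratedFDeriv ℝ i
      (fun z => P z * (M (Real.log (q₁ z)) - M (Real.log (q₂ z)))) z‖ * ‖z‖ ^ i
        ≤ ε * ‖z‖ ^ (k - i) * ‖z‖ ^ i := by
    calc _ ≤ (∑ l ∈ Finset.range (i + 1), (i.choose l : ℝ) *
              ‖iteratedFDerivWithin ℝ l P {0}ᶜ z‖ *
              ‖iteratedFDerivWithin ℝ (i - l)
                (fun z => M (Real.log (q₁ z)) - M (Real.log (q₂ z))) {0}ᶜ z‖) * ‖z‖ ^ i := by
          gcongr
      _ ≤ ∑ l ∈ Finset.range (i + 1), (i.choose l : ℝ) * C l * (ε / S) * ‖z‖ ^ k := by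
          rw [Finset.sum_mul]
          apply Finset.sum_le_sum
          intro l hl
          have hl' : l ≤ i := by
            rw [Finset.mem_range] at hl; omega
          rw [iteratedFDerivWithin_of_isOpen l hopen hz',
            iteratedFDerivWithin_of_isOpen (i - l) hopen hz']
          have e1 := hC l z hz
          have e2 := hB (i - l) z hz (lt_of_lt_of_le hzδ
            (hmin (i - l) (Finset.mem_range.mpr (by omega))))
          have e3 : ‖z‖ ^ i = ‖z‖ ^ l * ‖z‖ ^ (i - l) := by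
            rw [← pow_add]; congr 1; omega
          calc (i.choose l : ℝ) * ‖iteratedFDeriv ℝ l P z‖ *
              ‖iteratedFDeriv ℝ (i - l)
                (fun z => M (Real.log (q₁ z)) - M (Real.log (q₂ z))) z‖ * ‖z‖ ^ i
              = (i.choose l : ℝ) * ((‖iteratedFDeriv ℝ l P z‖ * ‖z‖ ^ l) *
                (‖iteratedFDeriv ℝ (i - l)
                (fun z => M (Real.log (q₁ z)) - M (Real.log (q₂ z))) z‖ * ‖z‖ ^ (i - l))) := by
                rw [e3]; ring
            _ ≤ (i.choose l : ℝ) * ((C l * ‖z‖ ^ k) * (ε / S)) := by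
                have hC0l := hC0 l
                gcongr
            _ = _ := by ring
      _ = (∑ l ∈ Finset.range (i + 1), (i.choose l : ℝ) * C l) * (ε / S) * ‖z‖ ^ k := by
          rw [Finset.sum_mul, Finset.sum_mul]
      _ ≤ S * (ε / S) * ‖z‖ ^ k := by
          gcongr
          linarith
      _ = ε * ‖z‖ ^ (k - i) * ‖z‖ ^ i := by
          rw [hsplit]; field_simp
  exact le_of_mul_le_mul_right hfin (by positivity)

theorem contDiff_mul {q₁ q₂ P : E → ℝ} (h₁ : PosQuad q₁) (h₂ : PosQuad q₂) (k : ℕ) (hk : 1 ≤ k)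
    (hP : ContDiff ℝ ∞ P) (hPh : ∀ r : ℝ, 0 < r → ∀ z : E, P (r • z) = r ^ k * P z) :
    ContDiff ℝ k (fun z => P z * (M (Real.log (q₁ z)) - M (Real.log (q₂ z)))) ∧
    HasFDerivAt (fun z => P z * (M (Real.log (q₁ z)) - M (Real.log (q₂ z)))) (0 : E →L[ℝ] ℝ) 0 := by
  have hfl := flat_mul h₁ h₂ k hP hPh
  have hP0 : P 0 = 0 := by
    have h2 := hPh 2 (by norm_num) 0
    rw [smul_zero] at h2
    have h3 : (2 : ℝ) ≤ 2 ^ k := by
      calc (2 : ℝ) = 2 ^ 1 := by norm_num
        _ ≤ 2 ^ k := pow_le_pow_right₀ (by norm_num) hk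
    by_contra hne
    have h4 : (2 : ℝ) ^ k = 1 := by
      have : (2 : ℝ) ^ k * P 0 = 1 * P 0 := by linarith
      exact mul_right_cancel₀ hne this
    linarith
  constructor
  · apply contDiff_of_flat k _ _ _ hfl
    · exact hP.contDiffOn.mul ((M_contDiff.comp_contDiffOn h₁.log_contDiffOn).sub
        (M_contDiff.comp_contDiffOn h₂.log_contDiffOn))
    · simp [hP0]
  · rw [hasFDerivAt_iff_isLittleO_nhds_zero, Asymptotics.isLittleO_iff]
    intro c hc
    obtain ⟨δ, hδ, h⟩ := hfl 0 (Nat.zero_le _) c hc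
    filter_upwards [Metric.ball_mem_nhds (0 : E) (lt_min hδ one_pos)] with w hw
    rw [mem_ball_zero_iff, lt_min_iff] at hw
    by_cases hw0 : w = 0
    · simp [hw0]
    · have h1 := h w hw0 hw.1
      rw [norm_iteratedFDeriv_zero] at h1
      simp only [zero_add, hP0, zero_mul, sub_zero, zero_apply]
      refine h1.trans ?_
      gcongr
      rw [Nat.sub_zero]
      exact pow_le_of_le_one (norm_nonneg _) hw.2.le (by omega)

end

end Pool.Agent.X183.SLN
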