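import Pool.Agent.X183.SLN.Act

/-!
# The action is not `C^k`-linearizable
-/

open Filter Topology Set
open scoped ContDiff RealInnerProductSpace

namespace Pool.Agent.X183.SLN

variable {n : ℕ}

theorem tendsto_M_atBot : Tendsto M atBot atTop := by
  unfold M
  apply Real.tendsto_log_atTop.comp
  apply tendsto_atTop_add_const_left
  have : Tendsto (fun t : ℝ => t * t) atBot atTop := tendsto_id.atBot_mul_atBot₀ tendsto_id
  refine this.congr fun t => ?_
  ring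

/-- the gluing function. -/
noncomputable def kap (k : ℕ) (x : Fin n → ℝ) (t : ℝ) : ℝ := u k (0 : Fin n → ℝ) t - u k x t

theorem kap_eq (k : ℕ) (x : Fin n → ℝ) (t : ℝ) :
    kap k x t = t ^ k * (M (Real.log (t ^ 2)) - M (Real.log (nsq x + t ^ 2))) := by
  simp only [kap, u, nsq_zero, zero_add]
  ring

theorem kap_large (x : Fin n → ℝ) (hx : x ≠ 0) :
    Tendsto (fun t : ℝ => M (Real.log (t ^ 2)) - M (Real.log (nsq x + t ^ 2))) (𝓝[>] 0) atTop := by
  have h1 : Tendsto (fun t : ℝ => M (Real.log (t ^ 2))) (𝓝[>] 0) atTop := by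
    apply tendsto_M_atBot.comp
    apply Real.tendsto_log_nhdsGT_zero.comp
    rw [tendsto_nhdsWithin_iff]
    constructor
    · have : Tendsto (fun t : ℝ => t ^ 2) (𝓝 0) (𝓝 (0 ^ 2)) := (continuous_pow 2).tendsto 0
      rw [zero_pow (by norm_num)] at this
      exact this.mono_left nhdsWithin_le_nhds
    · filter_upwards [self_mem_nhdsWithin] with t ht
      have : (0 : ℝ) < t := ht
      exact Set.mem_Ioi.mpr (by positivity)
  have hpos := nsq_pos hx
  have h2 : Tendsto (fun t : ℝ => M (Real.log (nsq x + t ^ 2))) (𝓝[>] 0)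
      (𝓝 (M (Real.log (nsq x + 0 ^ 2)))) := by
    apply Tendsto.mono_left _ nhdsWithin_le_nhds
    have hc : ContinuousAt (fun t : ℝ => M (Real.log (nsq x + t ^ 2))) 0 := by
      have h3 : ContinuousAt (fun t : ℝ => Real.log (nsq x + t ^ 2)) 0 := by
        apply ContinuousAt.log
        · fun_prop
        · simp [hpos.ne']
      exact (M_contDiff.continuous.continuousAt).comp h3
    exact hc.tendsto
  have h3 := h1.atTop_add h2.neg
  exact h3

theorem kap_small (k : ℕ) (x : Fin n → ℝ) :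
    Tendsto (fun t : ℝ => kap (k + 1) x t / t ^ k) (𝓝[>] 0) (𝓝 0) := by
  have h1 : Continuous fun t : ℝ => kap 1 x t := by
    unfold kap
    exact ((u_continuous 1 le_rfl).comp (continuous_const.prodMk continuous_id)).sub
      ((u_continuous 1 le_rfl).comp (continuous_const.prodMk continuous_id))
  have h2 := h1.tendsto 0
  have h0 : kap 1 x 0 = 0 := by
    simp [kap, u_zero_right]
  rw [h0] at h2
  refine (h2.mono_left nhdsWithin_le_nhds).congr' ?_
  filter_upwards [self_mem_nhdsWithin] with t ht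
  have ht0 : t ≠ 0 := (Set.mem_Ioi.mp ht).ne'
  rw [kap_eq, kap_eq, eq_div_iff (pow_ne_zero _ ht0)]
  ring

namespace Coord

variable {E : Type} [NormedAddCommGroup E] [InnerProductSpace ℝ E] (D : Coord n E)

/-- path in an orbit -/
noncomputable def path (k : ℕ) (x : Fin n → ℝ) (t τ : ℝ) : E :=
  D.inc (τ • x) + t • D.e₁ + (u k (0 : Fin n → ℝ) t - u k (τ • x) t) • D.e₂

theorem X_path (k : ℕ) (x : Fin n → ℝ) (t τ : ℝ) : D.X (D.path k x t τ) = τ • x := by
  rw [path, map_add, map_add, D.X_inc, map_smul, map_smul, D.X_e₁, D.X_e₂]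
  simp

theorem Y_path (k : ℕ) (x : Fin n → ℝ) (t τ : ℝ) : D.Y (D.path k x t τ) = t := by
  rw [path, map_add, map_add, D.Y_inc, map_smul, map_smul, D.Y_e₁, D.Y_e₂]
  simp

theorem act_path (k : ℕ) (x : Fin n → ℝ) (t τ s : ℝ) (g : SLn n) (hg : mv g x = s • x) :
    D.act k g (D.path k x t τ) = D.path k x t (s * τ) := by
  have h1 : mv g (τ • x) = (s * τ) • x := by
    rw [mv_smul, hg, smul_smul, mul_comm]
  rw [act, X_path, Y_path, h1]
  simp only [path, del, h1, map_sub]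
  module

theorem path_continuous (k : ℕ) (hk : 1 ≤ k) (x : Fin n → ℝ) (t : ℝ) :
    Continuous (D.path k x t) := by
  have h1 : Continuous fun τ : ℝ => u k (τ • x) t :=
    (u_continuous k hk).comp ((continuous_id.smul continuous_const).prodMk continuous_const)
  unfold path
  exact ((D.inc.continuous.comp (continuous_id.smul continuous_const)).add continuous_const).add
    ((continuous_const.sub h1).smul continuous_const)

/-- projection killing the `x` part -/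
noncomputable def Q : E →L[ℝ] E := ContinuousLinearMap.id ℝ E - D.inc.comp D.X

theorem Q_apply (z : E) : D.Q z = z - D.inc (D.X z) := rfl

theorem Q_lin (g : SLn n) (z : E) : D.Q (D.lin g z) = D.Q z := by
  rw [Q_apply, Q_apply, lin_apply, map_add, D.X_inc, map_add]
  simp only [map_sub]
  abel

theorem X_lin (g : SLn n) (z : E) : D.X (D.lin g z) = mv g (D.X z) := by
  rw [lin_apply, map_add, D.X_inc]
  abel

theorem not_linearizable (hn : 2 ≤ n) (k : ℕ) (φ : OpenPartialHomeomorph E E) (V : Set E)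
    (N : Set (SLn n)) (hV : IsOpen V) (h0V : (0 : E) ∈ V) (hVs : V ⊆ φ.source)
    (hN : N ∈ 𝓝 (1 : SLn n))
    (hφ : ContDiffOn ℝ (k + 1 : ℕ) φ φ.source) (hφs : ContDiffOn ℝ (k + 1 : ℕ) φ.symm φ.target)
    (hφ0 : φ 0 = 0)
    (heq : ∀ g ∈ N, ∀ x ∈ V, φ (D.act (k + 1) g x) = D.lin g (φ x)) : False := by
  have hk : 1 ≤ k + 1 := by omega
  have h0s : (0 : E) ∈ φ.source := hVs h0V
  have h0t : (0 : E) ∈ φ.target := by rw [← hφ0]; exact φ.map_source h0s
  have hsymm0 : φ.symm 0 = 0 := by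
    have := φ.left_inv h0s
    rwa [hφ0] at this
  -- differentiability
  have hone : (1 : WithTop ℕ∞) ≤ ((k + 1 : ℕ) : WithTop ℕ∞) := by exact_mod_cast hk
  have hone0 : (((k + 1 : ℕ) : WithTop ℕ∞)) ≠ 0 := by
    intro h
    rw [h] at hone
    simp at hone
  have hdφ : ∀ z ∈ φ.source, DifferentiableAt ℝ φ z := fun z hz =>
    (hφ.contDiffAt (φ.open_source.mem_nhds hz)).differentiableAt hone0
  have hdφs : DifferentiableAt ℝ φ.symm 0 :=
    (hφs.contDiffAt (φ.open_target.mem_nhds h0t)).differentiableAt hone0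
  set Dφ := fderiv ℝ φ 0 with hDφ
  have hDφ' : HasFDerivAt φ Dφ 0 := (hdφ 0 h0s).hasFDerivAt
  have hinj : ∀ v : E, Dφ v = 0 → v = 0 := by
    intro v hv
    have h1 : HasFDerivAt (φ.symm ∘ φ) ((fderiv ℝ φ.symm 0).comp Dφ) 0 := by
      have h2 : HasFDerivAt φ.symm (fderiv ℝ φ.symm 0) (φ 0) := by
        rw [hφ0]; exact hdφs.hasFDerivAt
      exact h2.comp 0 hDφ'
    have h2 : (φ.symm ∘ φ) =ᶠ[𝓝 0] id := by
      filter_upwards [φ.open_source.mem_nhds h0s] with z hz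
      exact φ.left_inv hz
    have h3 : HasFDerivAt (id : E → E) ((fderiv ℝ φ.symm 0).comp Dφ) 0 :=
      h1.congr_of_eventuallyEq h2.symm
    have h4 := h3.unique (hasFDerivAt_id 0)
    have h5 := congrArg (fun L : E →L[ℝ] E => L v) h4
    simp only [ContinuousLinearMap.comp_apply, hv, map_zero] at h5
    simpa using h5.symm
  -- fixed points go to fixed points
  have hfix : ∀ z ∈ V, D.X z = 0 → D.X (φ z) = 0 := by
    intro z hz hX
    apply fixed_zero hn hN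
    intro g hg
    have h1 := heq g hg z hz
    have h2 : D.act (k + 1) g z = z := by
      simp [act, hX, mv_zero, del]
    rw [h2] at h1
    have h3 := congrArg D.X h1
    rw [D.X_lin] at h3
    exact h3.symm
  set w := Dφ D.e₂ with hw
  have hw0 : w ≠ 0 := fun h => D.e₂_ne (hinj _ h)
  have hXw : D.X w = 0 := by
    have h1 : HasDerivAt (fun s : ℝ => D.X (φ (s • D.e₂))) (D.X w) 0 := by
      have h2 : HasDerivAt (fun s : ℝ => s • D.e₂) D.e₂ 0 := by
        simpa using (hasDerivAt_id (0 : ℝ)).smul_const D.e₂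
      have h3 : HasFDerivAt φ Dφ ((fun s : ℝ => s • D.e₂) 0) := by
        simp only [zero_smul]; exact hDφ'
      have h4 := h3.comp_hasDerivAt (0 : ℝ) h2
      exact D.X.hasFDerivAt.comp_hasDerivAt (0 : ℝ) h4
    have h5 : (fun s : ℝ => D.X (φ (s • D.e₂))) =ᶠ[𝓝 0] fun _ => 0 := by
      have hc : ContinuousAt (fun s : ℝ => s • D.e₂) 0 := by fun_prop
      have h6 : V ∈ 𝓝 ((fun s : ℝ => s • D.e₂) 0) := by
        simp only [zero_smul]; exact hV.mem_nhds h0V
      filter_upwards [hc h6] with s hs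
      apply hfix _ hs
      rw [map_smul, D.X_e₂, smul_zero]
    have h6 : HasDerivAt (fun _ : ℝ => (0 : Fin n → ℝ)) (D.X w) 0 := h1.congr_of_eventuallyEq h5.symm
    exact h6.unique (hasDerivAt_const _ _)
  have hQw : D.Q w = w := by rw [Q_apply, hXw, map_zero, sub_zero]
  -- the invariant function
  let L : E →L[ℝ] ℝ := (innerSL ℝ w).comp D.Q
  have hL : ∀ z, L z = ⟪w, D.Q z⟫ := fun z => rfl
  let ψ : E → ℝ := fun z => L (φ z)
  have hψc : ContDiffOn ℝ (k + 1 : ℕ) ψ φ.source := L.contDiff.comp_contDiffOn hφ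
  have hψd : ∀ z ∈ φ.source, HasFDerivAt ψ (fderiv ℝ ψ z) z := fun z hz =>
    ((hψc.contDiffAt (φ.open_source.mem_nhds hz)).differentiableAt hone0).hasFDerivAt
  have hψinv : ∀ g ∈ N, ∀ z ∈ V, ψ (D.act (k + 1) g z) = ψ z := by
    intro g hg z hz
    simp only [ψ, hL, heq g hg z hz, Q_lin]
  set a : ℝ := ‖w‖ ^ 2 with ha
  have hapos : 0 < a := by have := norm_pos_iff.mpr hw0; positivity
  have hψ0 : fderiv ℝ ψ 0 D.e₂ = a := by
    have h1 : HasFDerivAt ψ (L.comp Dφ) 0 := L.hasFDerivAt.comp 0 hDφ'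
    rw [h1.fderiv, ContinuousLinearMap.comp_apply, hL, ← hw, hQw, real_inner_self_eq_norm_sq]
  have hcontd : ContinuousAt (fun z => fderiv ℝ ψ z D.e₂) 0 := by
    have h1 : ContinuousOn (fderiv ℝ ψ) φ.source :=
      hψc.continuousOn_fderiv_of_isOpen φ.open_source hone
    exact (h1.continuousAt (φ.open_source.mem_nhds h0s)).clm_apply continuousAt_const
  -- a good ball
  obtain ⟨δ, hδ, hball⟩ : ∃ δ > 0, ∀ z : E, ‖z‖ < δ → z ∈ V ∧
      a / 2 ≤ fderiv ℝ ψ z D.e₂ ∧ fderiv ℝ ψ z D.e₂ ≤ 2 * a := by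
    have h1 : ∀ᶠ z in 𝓝 (0 : E), z ∈ V ∧
        a / 2 ≤ fderiv ℝ ψ z D.e₂ ∧ fderiv ℝ ψ z D.e₂ ≤ 2 * a := by
      have h2 := hcontd.tendsto
      rw [hψ0] at h2
      filter_upwards [hV.mem_nhds h0V, h2.eventually (lt_mem_nhds (show a / 2 < a by linarith)),
        h2.eventually (gt_mem_nhds (show a < 2 * a by linarith))] with z e1 e2 e3
      exact ⟨e1, e2.le, e3.le⟩
    rw [Metric.eventually_nhds_iff] at h1
    obtain ⟨δ, hδ, h⟩ := h1
    exact ⟨δ, hδ, fun z hz => h (by simpa using hz)⟩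
  -- smallness of u
  set ε₀ : ℝ := δ / (8 * (1 + ‖D.e₂‖)) with hε₀
  have hε₀pos : 0 < ε₀ := by positivity
  have hε₀e : ε₀ * ‖D.e₂‖ ≤ δ / 8 := by
    rw [hε₀, div_mul_eq_mul_div, div_le_div_iff₀ (by positivity) (by norm_num)]
    nlinarith [norm_nonneg D.e₂]
  obtain ⟨η, hη, hu⟩ : ∃ η > 0, ∀ (x : Fin n → ℝ) (t : ℝ), ‖x‖ < η → |t| < η →
      |u (k + 1) x t| < ε₀ := by
    have h1 := (u_continuous (n := n) (k + 1) hk).tendsto 0
    have h2 : u (k + 1) (0 : (Fin n → ℝ) × ℝ).1 (0 : (Fin n → ℝ) × ℝ).2 = 0 := by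
      simp [u]
    rw [h2, Metric.tendsto_nhds_nhds] at h1
    obtain ⟨η, hη, h⟩ := h1 ε₀ hε₀pos
    refine ⟨η, hη, fun x t hx ht => ?_⟩
    have h3 := @h (x, t) (by
      rw [dist_zero_right, Prod.norm_def, max_lt_iff]
      exact ⟨hx, ht⟩)
    simpa using h3
  -- the base point
  have hnpos : 0 < n := by omega
  let i₀ : Fin n := ⟨0, hnpos⟩
  let j₀ : Fin n := ⟨1, by omega⟩
  have hij : i₀ ≠ j₀ := by simp [i₀, j₀]
  obtain ⟨c, hc0, hc1, hc2⟩ : ∃ c : ℝ, 0 < c ∧ c < η ∧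
      c * ‖D.inc (Pi.single i₀ (1 : ℝ))‖ < δ / 4 := by
    set B := ‖D.inc (Pi.single i₀ (1 : ℝ))‖ with hB
    have hB0 : 0 ≤ B := norm_nonneg _
    refine ⟨min (η / 2) (δ / (8 * (1 + B))), by positivity, ?_, ?_⟩
    · exact lt_of_le_of_lt (min_le_left _ _) (by linarith)
    · have h1 : min (η / 2) (δ / (8 * (1 + B))) * B ≤ δ / (8 * (1 + B)) * B := by
        gcongr; exact min_le_right _ _
      have h2 : δ / (8 * (1 + B)) * B ≤ δ / 8 := by
        rw [div_mul_eq_mul_div, div_le_div_iff₀ (by positivity) (by norm_num)]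
        nlinarith
      linarith
  set x₀ : Fin n → ℝ := Pi.single i₀ c with hx₀
  have hx₀ne : x₀ ≠ 0 := by
    intro h
    have := congrFun h i₀
    simp [hx₀] at this
    linarith
  have hx₀norm : ‖x₀‖ < η := by
    rw [hx₀, Pi.norm_single, Real.norm_of_nonneg hc0.le]; exact hc1
  have hincx₀ : ‖D.inc x₀‖ < δ / 4 := by
    have h1 : x₀ = c • Pi.single i₀ (1 : ℝ) := by
      rw [hx₀, ← Pi.single_smul, smul_eq_mul, mul_one]
    rw [h1, map_smul, norm_smul, Real.norm_of_nonneg hc0.le]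
    exact hc2
  -- smallness of t
  obtain ⟨t₀, ht₀, ht₀η, ht₀e⟩ : ∃ t₀ : ℝ, 0 < t₀ ∧ t₀ < η ∧ t₀ * ‖D.e₁‖ < δ / 4 := by
    refine ⟨min (η / 2) (δ / (8 * (1 + ‖D.e₁‖))), by positivity, ?_, ?_⟩
    · exact lt_of_le_of_lt (min_le_left _ _) (by linarith)
    · have h1 : min (η / 2) (δ / (8 * (1 + ‖D.e₁‖))) * ‖D.e₁‖ ≤ δ / (8 * (1 + ‖D.e₁‖)) * ‖D.e₁‖ := by
        gcongr; exact min_le_right _ _
      have h2 : δ / (8 * (1 + ‖D.e₁‖)) * ‖D.e₁‖ ≤ δ / 8 := by
        rw [div_mul_eq_mul_div, div_le_div_iff₀ (by positivity) (by norm_num)]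
        nlinarith [norm_nonneg D.e₁]
      linarith
  have hgen : ∀ (τ t s : ℝ), |τ| ≤ 1 → |t| ≤ t₀ → |s| ≤ 2 * ε₀ →
      ‖D.inc (τ • x₀) + t • D.e₁ + s • D.e₂‖ < δ := by
    intro τ t s hτ ht hs
    have e1 : ‖D.inc (τ • x₀)‖ < δ / 4 := by
      rw [map_smul, norm_smul]
      calc |τ| * ‖D.inc x₀‖ ≤ 1 * ‖D.inc x₀‖ := by gcongr
        _ < δ / 4 := by rw [one_mul]; exact hincx₀
    have e2 : ‖t • D.e₁‖ < δ / 4 := by
      rw [norm_smul]
      calc |t| * ‖D.e₁‖ ≤ t₀ * ‖D.e₁‖ := by gcongr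
        _ < δ / 4 := ht₀e
    have e3 : ‖s • D.e₂‖ ≤ δ / 4 := by
      rw [norm_smul]
      calc |s| * ‖D.e₂‖ ≤ 2 * ε₀ * ‖D.e₂‖ := by gcongr
        _ = 2 * (ε₀ * ‖D.e₂‖) := by ring
        _ ≤ 2 * (δ / 8) := by gcongr
        _ = δ / 4 := by ring
    calc _ ≤ ‖D.inc (τ • x₀)‖ + ‖t • D.e₁‖ + ‖s • D.e₂‖ := norm_add₃_le
      _ < δ := by linarith
  have hsmall : ∀ (τ t : ℝ), |τ| ≤ 1 → |t| ≤ t₀ → |u (k + 1) (0 : Fin n → ℝ) t - u (k + 1) (τ • x₀) t| ≤ 2 * ε₀ := by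
    intro τ t hτ ht
    have h1 := hu (0 : Fin n → ℝ) t (by simpa using hη) (lt_of_le_of_lt ht ht₀η)
    have h2 := hu (τ • x₀) t (by
      rw [norm_smul]
      calc |τ| * ‖x₀‖ ≤ 1 * ‖x₀‖ := by gcongr
        _ < η := by rw [one_mul]; exact hx₀norm) (lt_of_le_of_lt ht ht₀η)
    calc _ ≤ |u (k + 1) (0 : Fin n → ℝ) t| + |u (k + 1) (τ • x₀) t| := abs_sub _ _
      _ ≤ 2 * ε₀ := by linarith
  have hpathV : ∀ (τ t : ℝ), |τ| ≤ 1 → |t| ≤ t₀ → ‖D.path (k + 1) x₀ t τ‖ < δ :=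
    fun τ t hτ ht => hgen τ t _ hτ ht (hsmall τ t hτ ht)
  -- the group element
  obtain ⟨r, hr, hrN⟩ := exists_dg i₀ j₀ hij hN
  set g := dg i₀ j₀ hij r with hg
  set s := Real.exp r with hs
  have hs0 : 0 < s := Real.exp_pos r
  have hs1 : s < 1 := Real.exp_lt_one_iff.mpr hr
  have hgx : mv g x₀ = s • x₀ := mv_dg_single i₀ j₀ hij r c
  have hinvpath : ∀ t, |t| ≤ t₀ → ψ (D.path (k + 1) x₀ t 1) = ψ (D.path (k + 1) x₀ t 0) := by
    intro t ht
    have h1 : ∀ j : ℕ, ψ (D.path (k + 1) x₀ t (s ^ j)) = ψ (D.path (k + 1) x₀ t 1) := by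
      intro j
      induction j with
      | zero => simp
      | succ j ih =>
        rw [← ih, pow_succ, mul_comm (s ^ j) s, ← D.act_path (k + 1) x₀ t (s ^ j) s g hgx]
        apply hψinv g hrN
        apply (hball _ _).1
        apply hpathV _ _ _ ht
        rw [abs_of_nonneg (by positivity)]
        exact pow_le_one₀ hs0.le hs1.le
    have h2 : Tendsto (fun j : ℕ => D.path (k + 1) x₀ t (s ^ j)) atTop
        (𝓝 (D.path (k + 1) x₀ t 0)) :=
      ((D.path_continuous (k + 1) hk x₀ t).tendsto 0).comp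
        (tendsto_pow_atTop_nhds_zero_of_lt_one hs0.le hs1)
    have h3 : ContinuousAt ψ (D.path (k + 1) x₀ t 0) := by
      apply (hψd _ _).continuousAt
      exact hVs (hball _ (hpathV 0 t (by simp) ht)).1
    have h4 := h3.tendsto.comp h2
    have h5 : Tendsto (fun _ : ℕ => ψ (D.path (k + 1) x₀ t 1)) atTop
        (𝓝 (ψ (D.path (k + 1) x₀ t 0))) := h4.congr h1
    exact tendsto_nhds_unique tendsto_const_nhds h5
  -- the difference function
  let f : ℝ → ℝ := fun t => ψ (t • D.e₁) - ψ (D.inc x₀ + t • D.e₁)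
  have hpath0 : ∀ t, D.path (k + 1) x₀ t 0 = t • D.e₁ := by
    intro t; simp [path]
  have hpath1 : ∀ t, D.path (k + 1) x₀ t 1 = D.inc x₀ + t • D.e₁ + kap (k + 1) x₀ t • D.e₂ := by
    intro t; simp [path, kap]
  have hkap2 : ∀ t, |t| ≤ t₀ → |kap (k + 1) x₀ t| ≤ 2 * ε₀ := by
    intro t ht
    have := hsmall 1 t (by simp) ht
    rwa [one_smul] at this
  have hf : ∀ t, |t| ≤ t₀ → 0 < kap (k + 1) x₀ t →
      a / 2 * kap (k + 1) x₀ t ≤ f t ∧ f t ≤ 2 * a * kap (k + 1) x₀ t := by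
    intro t ht hkp
    have hpt : ∀ s ∈ Icc 0 (kap (k + 1) x₀ t),
        ‖D.inc x₀ + t • D.e₁ + s • D.e₂‖ < δ := by
      intro s hs
      have := hgen 1 t s (by simp) ht (by
        rw [abs_of_nonneg hs.1]
        exact hs.2.trans ((le_abs_self _).trans (hkap2 t ht)))
      rwa [one_smul] at this
    have hder : ∀ s ∈ Icc 0 (kap (k + 1) x₀ t),
        HasDerivAt (fun s : ℝ => ψ (D.inc x₀ + t • D.e₁ + s • D.e₂))
          (fderiv ℝ ψ (D.inc x₀ + t • D.e₁ + s • D.e₂) D.e₂) s := by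
      intro s hs
      have h1 := hψd _ (hVs (hball _ (hpt s hs)).1)
      have h2 : HasDerivAt (fun s : ℝ => D.inc x₀ + t • D.e₁ + s • D.e₂) D.e₂ s := by
        simpa using ((hasDerivAt_id s).smul_const D.e₂).const_add (D.inc x₀ + t • D.e₁)
      exact HasFDerivAt.comp_hasDerivAt (l := ψ)
        (f := fun s : ℝ => D.inc x₀ + t • D.e₁ + s • D.e₂) s h1 h2
    obtain ⟨ξ, hξ, hslope⟩ := exists_hasDerivAt_eq_slope
      (fun s : ℝ => ψ (D.inc x₀ + t • D.e₁ + s • D.e₂))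
      (fun s : ℝ => fderiv ℝ ψ (D.inc x₀ + t • D.e₁ + s • D.e₂) D.e₂) hkp
      (fun s hs => (hder s hs).continuousAt.continuousWithinAt)
      (fun s hs => hder s ⟨hs.1.le, hs.2.le⟩)
    simp only [zero_smul, add_zero, sub_zero] at hslope
    have h3 : ψ (D.inc x₀ + t • D.e₁ + kap (k + 1) x₀ t • D.e₂) = ψ (t • D.e₁) := by
      rw [← hpath1, ← hpath0]; exact hinvpath t ht
    rw [h3, eq_div_iff hkp.ne'] at hslope
    have h4 := hball _ (hpt ξ ⟨hξ.1.le, hξ.2.le⟩)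
    change _ ≤ ψ (t • D.e₁) - ψ (D.inc x₀ + t • D.e₁) ∧
      ψ (t • D.e₁) - ψ (D.inc x₀ + t • D.e₁) ≤ _
    rw [← hslope]
    constructor
    · gcongr; exact h4.2.1
    · gcongr; exact h4.2.2
  have hfC : ContDiffOn ℝ (k + 1 : ℕ) f (Icc 0 t₀) := by
    have h1 : ∀ t ∈ Icc 0 t₀, t • D.e₁ ∈ φ.source := by
      intro t ht
      have := hgen 0 t 0 (by simp) (by rw [abs_of_nonneg ht.1]; exact ht.2) (by simp [hε₀pos.le])
      apply hVs
      apply (hball _ _).1
      simpa using this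
    have h2 : ∀ t ∈ Icc 0 t₀, D.inc x₀ + t • D.e₁ ∈ φ.source := by
      intro t ht
      have := hgen 1 t 0 (by simp) (by rw [abs_of_nonneg ht.1]; exact ht.2) (by simp [hε₀pos.le])
      apply hVs
      apply (hball _ _).1
      simpa using this
    have h3 : ContDiff ℝ (k + 1 : ℕ) fun t : ℝ => t • D.e₁ := by fun_prop
    have h4 : ContDiff ℝ (k + 1 : ℕ) fun t : ℝ => D.inc x₀ + t • D.e₁ := by fun_prop
    exact (hψc.comp h3.contDiffOn h1).sub (hψc.comp h4.contDiffOn h2)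
  have hkpos : ∀ᶠ t in 𝓝[>] (0 : ℝ), 0 < kap (k + 1) x₀ t := by
    filter_upwards [(kap_large x₀ hx₀ne).eventually_gt_atTop 0, self_mem_nhdsWithin] with t h1 h2
    have h3 : (0 : ℝ) < t := h2
    rw [kap_eq]
    positivity
  have htsmall : ∀ᶠ t in 𝓝[>] (0 : ℝ), 0 < t ∧ |t| ≤ t₀ := by
    filter_upwards [Ioo_mem_nhdsGT ht₀] with t ht
    exact ⟨ht.1, by rw [abs_of_pos ht.1]; exact ht.2.le⟩
  have hflim : Tendsto (fun t => f t / t ^ k) (𝓝[>] 0) (𝓝 0) := by
    apply squeeze_zero' (g := fun t => 2 * a * (kap (k + 1) x₀ t / t ^ k))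
    · filter_upwards [hkpos, htsmall] with t h1 h2
      have h3 := (hf t h2.2 h1).1
      have h4 := h2.1
      have h5 : 0 ≤ f t := le_trans (by positivity) h3
      positivity
    · filter_upwards [hkpos, htsmall] with t h1 h2
      have h3 := (hf t h2.2 h1).2
      have h4 := h2.1
      rw [← mul_div_assoc]
      gcongr
    · have := (kap_small k x₀).const_mul (2 * a)
      rwa [mul_zero] at this
  obtain ⟨C, hC⟩ := bound_of_flat k f t₀ ht₀ hfC hflim
  -- contradiction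
  have hlarge := (kap_large x₀ hx₀ne).eventually_gt_atTop (2 * C / a)
  obtain ⟨t, h1, h2, h3⟩ := (hkpos.and (htsmall.and hlarge)).exists
  have h4 := (hf t h2.2 h1).1
  have h5 := hC t ⟨h2.1.le, by have := h2.2; rwa [abs_of_pos h2.1] at this⟩
  have h6 : f t ≤ C * t ^ (k + 1) := (le_abs_self _).trans h5
  rw [kap_eq] at h4
  have h7 : 0 < t ^ (k + 1) := pow_pos h2.1 _
  have h8 : a / 2 * (M (Real.log (t ^ 2)) - M (Real.log (nsq x₀ + t ^ 2))) ≤ C := by
    have h9 : a / 2 * (M (Real.log (t ^ 2)) - M (Real.log (nsq x₀ + t ^ 2))) * t ^ (k + 1)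
        ≤ C * t ^ (k + 1) := by
      calc _ = a / 2 * (t ^ (k + 1) * (M (Real.log (t ^ 2)) - M (Real.log (nsq x₀ + t ^ 2)))) := by
            ring
        _ ≤ _ := h4.trans h6
    exact le_of_mul_le_mul_right h9 h7
  rw [div_lt_iff₀ hapos] at h3
  linarith

end Coord

end Pool.Agent.X183.SLN
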